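import Pool.Agent.Helper94.CY.Ops

/-!
# Polyvector fields on products
-/

set_option autoImplicit false

namespace Pool.Agent.Hodge81

open Complex Module LaurentPolynomial
open Pool.Agent.CY94

theorem exists_functional {V : Type*} [AddCommGroup V] [Module ℂ V] {v : V} (hv : v ≠ 0) :
    ∃ ξ : V →ₗ[ℂ] ℂ, ξ v = 1 := by
  by_contra h
  push Not at h
  refine hv ((Module.forall_dual_apply_eq_zero_iff ℂ v).1 fun φ => ?_)
  by_contra h0
  refine h ((φ v)⁻¹ • φ) ?_
  rw [LinearMap.smul_apply, smul_eq_mul, inv_mul_cancel₀ h0]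

namespace HodgeRing

variable {n : ℕ} {A : Type*} [Ring A] [Algebra ℂ A] (X : HodgeRing n A)

/-- the sign operator: `(-1)^{p+q}` on `H^{p,q}` -/
noncomputable def sgn : Module.End ℂ A := X.dual ∘ₗ X.dual

theorem sgn_of_mem {p q : ℕ} {v : A} (hv : v ∈ X.H p q) :
    X.sgn v = (-1 : ℂ) ^ (p + q) • v := by
  change X.dual (X.dual v) = _
  rw [X.dual_of_mem hv, map_smul, X.dual_of_mem hv, smul_smul, ← mul_pow, I_mul_I]

theorem sgn_mem {p q : ℕ} {v : A} (hv : v ∈ X.H p q) : X.sgn v ∈ X.H p q := by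
  rw [X.sgn_of_mem hv]
  exact Submodule.smul_mem _ _ hv

theorem sgn_sgn (v : A) : X.sgn (X.sgn v) = v := by
  have h1 : X.sgn * X.sgn = 1 := by
    refine PolyvectorAction.ext_H X fun p q v hv => ?_
    change X.sgn (X.sgn v) = v
    rw [X.sgn_of_mem hv, map_smul, X.sgn_of_mem hv, smul_smul, ← mul_pow]
    norm_num
  exact LinearMap.congr_fun h1 v

/-- operators of odd degree anticommute with the sign operator -/
theorem sgn_odd (P : PolyvectorAction X) {f : Module.End ℂ A} (hf : f ∈ P.total 3) (v : A) :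
    X.sgn (f v) = -f (X.sgn v) := by
  have h1 : X.sgn * f = -(f * X.sgn) := by
    refine P.total_induct (Q := fun f => X.sgn * f = -(f * X.sgn)) (fun a b hab f hf => ?_)
      (by simp) (fun f g hf hg => by rw [mul_add, add_mul, hf, hg, neg_add]) hf
    refine PolyvectorAction.ext_H X fun p q v hv => ?_
    change X.sgn (f v) = -(f (X.sgn v))
    rcases Nat.lt_or_ge p b with h | h
    · rw [X.sgn_of_mem hv, map_smul, P.vanish a b p q f v hf h hv, map_zero, smul_zero, neg_zero]
    · obtain ⟨p', rfl⟩ : ∃ p', p = p' + b := ⟨p - b, by omega⟩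
      rw [X.sgn_of_mem hv, X.sgn_of_mem (P.degree a b p' q f v hf hv), map_smul, ← neg_smul]
      congr 1
      have h2 : (-1 : ℂ) ^ (p' + (q + a)) = -(-1) ^ (p' + b + q) := by
        have h3 : (-1 : ℂ) ^ (p' + (q + a)) * (-1) ^ (p' + b + q) = -1 := by
          rw [← pow_add]
          have e : p' + (q + a) + (p' + b + q) = 2 * (p' + q + 1) + 1 := by omega
          rw [e, pow_succ, pow_mul]
          norm_num
        have h4 : (-1 : ℂ) ^ (p' + b + q) * (-1) ^ (p' + b + q) = 1 := by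
          rw [← pow_add, ← two_mul, pow_mul]
          norm_num
        calc (-1 : ℂ) ^ (p' + (q + a)) = (-1) ^ (p' + (q + a)) * ((-1) ^ (p' + b + q) *
              (-1) ^ (p' + b + q)) := by rw [h4, mul_one]
          _ = _ := by rw [← mul_assoc, h3, neg_one_mul]
      exact h2
  exact LinearMap.congr_fun h1 v

/-- a functional which sees only the unit -/
theorem exists_unit_functional : ∃ ξ : A →ₗ[ℂ] ℂ, ξ 1 = 1 ∧
    ∀ d : ℤ, d ≠ 0 → ∀ v ∈ X.column d, ξ v = 0 := by
  have := X.nontrivial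
  obtain ⟨η, hη⟩ := exists_functional (one_ne_zero (α := A))
  refine ⟨η ∘ₗ X.proj 0 0, ?_, fun d hd v hv => ?_⟩
  · rw [LinearMap.comp_apply, X.proj_of_mem 0 0 X.one_mem, if_pos rfl, hη]
  · refine X.column_induct (P := fun v => (η ∘ₗ X.proj 0 0) v = 0) (fun p q hpq v hv => ?_)
      (map_zero _) (fun a b ha hb => by rw [map_add, ha, hb, add_zero]) hv
    rw [LinearMap.comp_apply, X.proj_of_mem 0 0 hv, if_neg, map_zero]
    intro h
    have h1 := Prod.ext_iff.1 h
    simp only at h1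
    omega

end HodgeRing

namespace Product

open scoped TensorProduct

variable {n a b : ℕ} {A C D : Type*} [Ring A] [Algebra ℂ A] [Ring C] [Algebra ℂ C]
  [Ring D] [Algebra ℂ D] {X : HodgeRing n A} {W : HodgeRing a C} {Z : HodgeRing b D}
  (U : Product X W Z)

/-- the Kuenneth isomorphism -/
noncomputable def ku : C ⊗[ℂ] D ≃ₗ[ℂ] A := LinearEquiv.ofBijective _ U.kuenneth

theorem ku_tmul (w : C) (z : D) : U.ku (w ⊗ₜ z) = U.fst w * U.snd z := rfl

theorem ku_symm (w : C) (z : D) : U.ku.symm (U.fst w * U.snd z) = w ⊗ₜ z := by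
  rw [LinearEquiv.symm_apply_eq, ku_tmul]

theorem ext_ku {V : Type*} [AddCommGroup V] [Module ℂ V] {f g : A →ₗ[ℂ] V}
    (h : ∀ w z, f (U.fst w * U.snd z) = g (U.fst w * U.snd z)) : f = g := by
  have h1 : f ∘ₗ U.ku.toLinearMap = g ∘ₗ U.ku.toLinearMap := by
    refine TensorProduct.ext' fun w z => ?_
    exact h w z
  ext v
  have h2 := LinearMap.congr_fun h1 (U.ku.symm v)
  simpa using h2

/-- slices -/
noncomputable def sl (ξ : C →ₗ[ℂ] ℂ) : A →ₗ[ℂ] D :=
  (TensorProduct.lid ℂ D).toLinearMap ∘ₗ TensorProduct.map ξ LinearMap.id ∘ₗ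
    U.ku.symm.toLinearMap

theorem sl_apply (ξ : C →ₗ[ℂ] ℂ) (w : C) (z : D) : U.sl ξ (U.fst w * U.snd z) = ξ w • z := by
  change (TensorProduct.lid ℂ D) (TensorProduct.map ξ LinearMap.id
    (U.ku.symm (U.fst w * U.snd z))) = _
  rw [ku_symm]
  simp

/-- slices -/
noncomputable def sr (η : D →ₗ[ℂ] ℂ) : A →ₗ[ℂ] C :=
  (TensorProduct.rid ℂ C).toLinearMap ∘ₗ TensorProduct.map LinearMap.id η ∘ₗ
    U.ku.symm.toLinearMap

theorem sr_apply (η : D →ₗ[ℂ] ℂ) (w : C) (z : D) : U.sr η (U.fst w * U.snd z) = η z • w := by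
  change (TensorProduct.rid ℂ C) (TensorProduct.map LinearMap.id η
    (U.ku.symm (U.fst w * U.snd z))) = _
  rw [ku_symm]
  simp

theorem isBox_uniq {m : ℕ} {f : Module.End ℂ C} {g : Module.End ℂ D} {F G : Module.End ℂ A}
    (h : U.IsBox m f g F) (h' : U.IsBox m f g G) : F = G := by
  refine U.ext_ku fun w z => ?_
  have h1 : (F ∘ₗ LinearMap.mulRight ℂ (U.snd z)) ∘ₗ U.fst.toLinearMap =
      (G ∘ₗ LinearMap.mulRight ℂ (U.snd z)) ∘ₗ U.fst.toLinearMap := by
    have h2 : (⊤ : Submodule ℂ C) ≤ LinearMap.ker (((F ∘ₗ LinearMap.mulRight ℂ (U.snd z)) ∘ₗ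
        U.fst.toLinearMap) - ((G ∘ₗ LinearMap.mulRight ℂ (U.snd z)) ∘ₗ U.fst.toLinearMap)) := by
      rw [← W.iSup_H]
      refine iSup_le fun x v hv => ?_
      rw [LinearMap.mem_ker, LinearMap.sub_apply, sub_eq_zero]
      change F (U.fst v * U.snd z) = G (U.fst v * U.snd z)
      rw [h _ _ v z hv, h' _ _ v z hv]
    ext v
    have h3 : v ∈ LinearMap.ker _ := h2 (x := v) trivial
    rw [LinearMap.mem_ker, LinearMap.sub_apply, sub_eq_zero] at h3
    exact h3
  exact LinearMap.congr_fun h1 w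

/-- the operator `f ⊠ 1` -/
noncomputable def inl (f : Module.End ℂ C) : Module.End ℂ A :=
  U.ku.toLinearMap ∘ₗ TensorProduct.map f LinearMap.id ∘ₗ U.ku.symm.toLinearMap

theorem inl_apply (f : Module.End ℂ C) (w : C) (z : D) :
    U.inl f (U.fst w * U.snd z) = U.fst (f w) * U.snd z := by
  change U.ku (TensorProduct.map f LinearMap.id (U.ku.symm (U.fst w * U.snd z))) = _
  rw [ku_symm, TensorProduct.map_tmul, ku_tmul]
  rfl

/-- the operator `1 ⊠ g` for `g` of odd degree -/
noncomputable def inr (g : Module.End ℂ D) : Module.End ℂ A :=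
  U.ku.toLinearMap ∘ₗ TensorProduct.map W.sgn g ∘ₗ U.ku.symm.toLinearMap

theorem inr_apply (g : Module.End ℂ D) (w : C) (z : D) :
    U.inr g (U.fst w * U.snd z) = U.fst (W.sgn w) * U.snd (g z) := by
  change U.ku (TensorProduct.map W.sgn g (U.ku.symm (U.fst w * U.snd z))) = _
  rw [ku_symm, TensorProduct.map_tmul, ku_tmul]

theorem inl_add (f g : Module.End ℂ C) : U.inl (f + g) = U.inl f + U.inl g := by
  refine U.ext_ku fun w z => ?_
  rw [LinearMap.add_apply, inl_apply, inl_apply, inl_apply, LinearMap.add_apply, map_add,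
    add_mul]

theorem inl_smul (c : ℂ) (f : Module.End ℂ C) : U.inl (c • f) = c • U.inl f := by
  refine U.ext_ku fun w z => ?_
  rw [LinearMap.smul_apply, inl_apply, inl_apply, LinearMap.smul_apply, map_smul, smul_mul_assoc]

theorem inr_add (f g : Module.End ℂ D) : U.inr (f + g) = U.inr f + U.inr g := by
  refine U.ext_ku fun w z => ?_
  rw [LinearMap.add_apply, inr_apply, inr_apply, inr_apply, LinearMap.add_apply, map_add,
    mul_add]

theorem inr_smul (c : ℂ) (f : Module.End ℂ D) : U.inr (c • f) = c • U.inr f := by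
  refine U.ext_ku fun w z => ?_
  rw [LinearMap.smul_apply, inr_apply, inr_apply, LinearMap.smul_apply, map_smul, mul_smul_comm]

/-- `inl` as a linear map -/
noncomputable def inlL : Module.End ℂ C →ₗ[ℂ] Module.End ℂ A where
  toFun := U.inl
  map_add' := U.inl_add
  map_smul' := U.inl_smul

/-- `inr` as a linear map -/
noncomputable def inrL : Module.End ℂ D →ₗ[ℂ] Module.End ℂ A where
  toFun := U.inr
  map_add' := U.inr_add
  map_smul' := U.inr_smul

theorem inlL_apply (f : Module.End ℂ C) : U.inlL f = U.inl f := rfl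

theorem inrL_apply (f : Module.End ℂ D) : U.inrL f = U.inr f := rfl

theorem inl_mul (f g : Module.End ℂ C) : U.inl f * U.inl g = U.inl (f * g) := by
  refine U.ext_ku fun w z => ?_
  rw [Module.End.mul_apply, inl_apply, inl_apply, inl_apply, Module.End.mul_apply]

theorem inr_mul (f g : Module.End ℂ D) (w : C) (z : D) :
    (U.inr f * U.inr g) (U.fst w * U.snd z) = U.fst w * U.snd (f (g z)) := by
  rw [Module.End.mul_apply, inr_apply, inr_apply, W.sgn_sgn]

theorem fst_one_mul (z : D) : U.fst 1 * U.snd z = U.snd z := by rw [map_one, one_mul]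

theorem snd_inj (z : D) (hz : U.snd z = 0) : z = 0 := by
  have := W.nontrivial
  obtain ⟨ξ, hξ⟩ := exists_functional (one_ne_zero (α := C))
  have h1 := U.sl_apply ξ 1 z
  rw [fst_one_mul, hz, map_zero, hξ, one_smul] at h1
  exact h1.symm

theorem inl_inj (f : Module.End ℂ C) (hf : U.inl f = 0) : f = 0 := by
  ext w
  have h1 := U.inl_apply f w 1
  rw [hf, LinearMap.zero_apply, map_one, mul_one] at h1
  rw [LinearMap.zero_apply]
  exact U.fst_inj _ h1.symm

theorem inr_inj (g : Module.End ℂ D) (hg : U.inr g = 0) : g = 0 := by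
  ext z
  have h1 := U.inr_apply g 1 z
  rw [hg, LinearMap.zero_apply, W.sgn_of_mem W.one_mem, add_zero, pow_zero, one_smul,
    fst_one_mul] at h1
  rw [LinearMap.zero_apply]
  exact U.snd_inj _ h1.symm

end Product

namespace Product

variable {n a b : ℕ} {A C D : Type*} [Ring A] [Algebra ℂ A] [Ring C] [Algebra ℂ C]
  [Ring D] [Algebra ℂ D] {X : HodgeRing n A} {W : HodgeRing a C} {Z : HodgeRing b D}
  {U : Product X W Z} {P : PolyvectorAction X} {PW : PolyvectorAction W}
  {PZ : PolyvectorAction Z}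

namespace Kuenneth

/-- induction over the products -/
theorem total_induct (K : U.Kuenneth P PW PZ) {k : ℕ} {Q : Module.End ℂ A → Prop}
    (h : ∀ i j f g F, i + j = k → f ∈ PW.total i → g ∈ PZ.total j → U.IsBox j f g F → Q F)
    (h0 : Q 0) (hadd : ∀ f g, Q f → Q g → Q (f + g)) (hsmul : ∀ (c : ℂ) f, Q f → Q (c • f))
    {F : Module.End ℂ A} (hF : F ∈ P.total k) : Q F := by
  refine P.total_induct (Q := Q) (fun c d hcd F hF => ?_) h0 hadd hF
  rw [K.span] at hF
  induction hF using Submodule.span_induction with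
  | mem F hF =>
    obtain ⟨i, j, i', j', f, g, e1, e2, hf, hg, hb⟩ := hF
    exact h (i + j) (i' + j') f g F (by omega) (PW.mem_total rfl hf) (PZ.mem_total rfl hg) hb
  | zero => exact h0
  | add x y _ _ hx hy => exact hadd x y hx hy
  | smul c x _ hx => exact hsmul c x hx

theorem total_zero {m : ℕ} {E : Type*} [Ring E] [Algebra ℂ E] {V : HodgeRing m E}
    (PV : PolyvectorAction V) {f : Module.End ℂ E} (hf : f ∈ PV.total 0) : ∃ c : ℂ, f = c • 1 := by
  refine PV.total_induct (Q := fun f => ∃ c : ℂ, f = c • 1) (fun i j hij f hf => ?_)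
    ⟨0, by rw [zero_smul]⟩ ?_ hf
  · obtain ⟨rfl, rfl⟩ : i = 0 ∧ j = 0 := by omega
    exact PV.T_zero_zero hf
  · rintro _ _ ⟨c, rfl⟩ ⟨d, rfl⟩
    exact ⟨c + d, by rw [add_smul]⟩

theorem total_one (K : U.Kuenneth P PW PZ) (hW : PW.total 1 = ⊥) (hZ : PZ.total 1 = ⊥) :
    P.total 1 = ⊥ := by
  rw [eq_bot_iff]
  intro F hF
  rw [Submodule.mem_bot]
  refine K.total_induct (Q := fun F => F = 0) (fun i j f g F hij hf hg hb => ?_) rfl
    (fun f g hf hg => by rw [hf, hg, add_zero]) (fun c f hf => by rw [hf, smul_zero]) hF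
  refine U.isBox_uniq hb fun p q w z hw => ?_
  have h0 : f = 0 ∨ g = 0 := by
    obtain ⟨rfl, rfl⟩ | ⟨rfl, rfl⟩ : (i = 0 ∧ j = 1) ∨ (i = 1 ∧ j = 0) := by omega
    · rw [hZ, Submodule.mem_bot] at hg
      exact Or.inr hg
    · rw [hW, Submodule.mem_bot] at hf
      exact Or.inl hf
  rcases h0 with rfl | rfl
  · rw [LinearMap.zero_apply, LinearMap.zero_apply, map_zero, zero_mul, smul_zero]
  · rw [LinearMap.zero_apply, LinearMap.zero_apply, map_zero, mul_zero, smul_zero]

theorem isBox_inl (f : Module.End ℂ C) : U.IsBox 0 f 1 (U.inl f) := fun p q w z _ => by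
  rw [inl_apply, zero_mul, pow_zero, one_smul, Module.End.one_apply]

theorem isBox_inr (g : Module.End ℂ D) : U.IsBox 3 1 g (U.inr g) := fun p q w z hw => by
  rw [inr_apply, W.sgn_of_mem hw, map_smul, smul_mul_assoc, Module.End.one_apply]
  congr 1
  rw [pow_mul]
  norm_num

theorem exists_three (K : U.Kuenneth P PW PZ) (hW : PW.total 1 = ⊥) (hZ : PZ.total 1 = ⊥)
    {F : Module.End ℂ A} (hF : F ∈ P.total 3) :
    ∃ f ∈ PW.total 3, ∃ g ∈ PZ.total 3, F = U.inl f + U.inr g := by
  refine K.total_induct (Q := fun F => ∃ f ∈ PW.total 3, ∃ g ∈ PZ.total 3,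
    F = U.inl f + U.inr g) (fun i j f g F hij hf hg hb => ?_)
    ⟨0, Submodule.zero_mem _, 0, Submodule.zero_mem _, ?_⟩ ?_ ?_ hF
  · obtain ⟨rfl, rfl⟩ | ⟨rfl, rfl⟩ | ⟨rfl, rfl⟩ | ⟨rfl, rfl⟩ :
      (i = 3 ∧ j = 0) ∨ (i = 0 ∧ j = 3) ∨ (i = 1 ∧ j = 2) ∨ (i = 2 ∧ j = 1) := by omega
    · obtain ⟨c, rfl⟩ := total_zero PZ hg
      refine ⟨c • f, Submodule.smul_mem _ _ hf, 0, Submodule.zero_mem _, ?_⟩
      have e : U.inl (c • f) + U.inr (0 : Module.End ℂ D) = U.inl (c • f) := by
        rw [← inrL_apply, map_zero, add_zero]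
      rw [e]
      refine U.isBox_uniq hb fun p q w z _ => ?_
      rw [inl_apply, zero_mul, pow_zero, one_smul, LinearMap.smul_apply, map_smul,
        LinearMap.smul_apply, map_smul, smul_mul_assoc, mul_smul_comm, Module.End.one_apply]
    · obtain ⟨c, rfl⟩ := total_zero PW hf
      refine ⟨0, Submodule.zero_mem _, c • g, Submodule.smul_mem _ _ hg, ?_⟩
      have e : U.inl (0 : Module.End ℂ C) + U.inr (c • g) = U.inr (c • g) := by
        rw [← inlL_apply, map_zero, zero_add]
      rw [e]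
      refine U.isBox_uniq hb fun p q w z hw => ?_
      rw [inr_apply, W.sgn_of_mem hw, LinearMap.smul_apply, map_smul, map_smul,
        LinearMap.smul_apply, map_smul, smul_mul_assoc, smul_mul_assoc, mul_smul_comm,
        Module.End.one_apply]
      congr 1
      rw [pow_mul]
      norm_num
    · rw [hW, Submodule.mem_bot] at hf
      refine ⟨0, Submodule.zero_mem _, 0, Submodule.zero_mem _, ?_⟩
      rw [← inlL_apply, ← inrL_apply, map_zero, map_zero, add_zero]
      refine U.isBox_uniq hb fun p q w z _ => ?_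
      rw [hf, LinearMap.zero_apply, LinearMap.zero_apply, map_zero, zero_mul, smul_zero]
    · rw [hZ, Submodule.mem_bot] at hg
      refine ⟨0, Submodule.zero_mem _, 0, Submodule.zero_mem _, ?_⟩
      rw [← inlL_apply, ← inrL_apply, map_zero, map_zero, add_zero]
      refine U.isBox_uniq hb fun p q w z _ => ?_
      rw [hg, LinearMap.zero_apply, LinearMap.zero_apply, map_zero, mul_zero, smul_zero]
  · rw [← inlL_apply, ← inrL_apply, map_zero, map_zero, add_zero]
  · rintro _ _ ⟨f, hf, g, hg, rfl⟩ ⟨f', hf', g', hg', rfl⟩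
    refine ⟨f + f', Submodule.add_mem _ hf hf', g + g', Submodule.add_mem _ hg hg', ?_⟩
    rw [inl_add, inr_add]
    abel
  · rintro c _ ⟨f, hf, g, hg, rfl⟩
    refine ⟨c • f, Submodule.smul_mem _ _ hf, c • g, Submodule.smul_mem _ _ hg, ?_⟩
    rw [inl_smul, inr_smul, smul_add]

theorem inl_mem (K : U.Kuenneth P PW PZ) {f : Module.End ℂ C} (hf : f ∈ PW.total 3) :
    U.inl f ∈ P.total 3 := by
  refine PW.total_induct (Q := fun f => U.inl f ∈ P.total 3) (fun i j hij f hf => ?_) ?_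
    (fun f g hf hg => by rw [inl_add]; exact Submodule.add_mem _ hf hg) hf
  · refine P.mem_total hij ?_
    rw [K.span]
    exact Submodule.subset_span ⟨i, j, 0, 0, f, 1, rfl, rfl, hf, PZ.one_mem_T, isBox_inl f⟩
  · rw [← inlL_apply, map_zero]
    exact Submodule.zero_mem _

theorem inr_mem (K : U.Kuenneth P PW PZ) {g : Module.End ℂ D} (hg : g ∈ PZ.total 3) :
    U.inr g ∈ P.total 3 := by
  refine PZ.total_induct (Q := fun f => U.inr f ∈ P.total 3) (fun i j hij f hf => ?_) ?_
    (fun f g hf hg => by rw [inr_add]; exact Submodule.add_mem _ hf hg) hg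
  · refine P.mem_total hij ?_
    rw [K.span]
    refine Submodule.subset_span ⟨0, 0, i, j, 1, f, by omega, by omega, PW.one_mem_T, hf, ?_⟩
    rw [hij]
    exact isBox_inr f
  · rw [← inrL_apply, map_zero]
    exact Submodule.zero_mem _

end Kuenneth

end Product

end Pool.Agent.Hodge81
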