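import Mathlib

/-!
# Block decompositions determined by vanishing products
-/

set_option autoImplicit false

namespace Pool.Agent.CY94

open Module

section

variable {V W : Type*} [AddCommGroup V] [Module ℂ V] [AddCommGroup W] [Module ℂ W]

/-- two linearly independent vectors -/
def Indep2 (t s : V) : Prop := ∀ a b : ℂ, a • t + b • s = 0 → a = 0 ∧ b = 0

theorem Indep2.left {t s : V} (h : Indep2 t s) : t ≠ 0 := fun h0 => by
  have := h 1 0 (by rw [h0, smul_zero, zero_smul, add_zero])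
  exact one_ne_zero this.1

theorem Indep2.right {t s : V} (h : Indep2 t s) : s ≠ 0 := fun h0 => by
  have := h 0 1 (by rw [h0, smul_zero, zero_smul, add_zero])
  exact one_ne_zero this.2

theorem Indep2.symm {t s : V} (h : Indep2 t s) : Indep2 s t := fun a b hab =>
  (h b a (by rw [add_comm]; exact hab)).symm

theorem Indep2.map {t s : V} (h : Indep2 t s) (f : V →ₗ[ℂ] W) (hf : ∀ v, f v = 0 → v = 0) :
    Indep2 (f t) (f s) := fun a b hab => by
  refine h a b (hf _ ?_)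
  rw [map_add, map_smul, map_smul, hab]

/-- a vector outside a line -/
theorem Indep2.of_notMem {t s : V} (ht : t ≠ 0) (h : s ∉ Submodule.span ℂ {t}) :
    Indep2 t s := by
  intro a b hab
  have hb : b = 0 := by
    by_contra hb
    apply h
    rw [Submodule.mem_span_singleton]
    refine ⟨-(b⁻¹ * a), ?_⟩
    have h1 : b • s = -(a • t) := by rw [eq_neg_iff_add_eq_zero, add_comm]; exact hab
    have h2 : s = b⁻¹ • (b • s) := by rw [smul_smul, inv_mul_cancel₀ hb, one_smul]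
    rw [h2, h1, smul_neg, smul_smul, neg_smul]
  refine ⟨?_, hb⟩
  rw [hb, zero_smul, add_zero, smul_eq_zero] at hab
  exact hab.resolve_right ht

/-- a subspace of dimension at least two is not contained in the union of two lines -/
theorem exists_off_lines [FiniteDimensional ℂ V] (S : Submodule ℂ V) (hS : 2 ≤ finrank ℂ S)
    (t s : V) : ∃ u ∈ S, u ∉ Submodule.span ℂ {t} ∧ u ∉ Submodule.span ℂ {s} := by
  have key : ∀ x : V, ∃ u ∈ S, u ∉ Submodule.span ℂ {x} := by
    intro x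
    by_contra h
    push Not at h
    have h1 : S ≤ Submodule.span ℂ {x} := h
    have h2 := Submodule.finrank_mono h1
    have h3 : finrank ℂ (Submodule.span ℂ {x}) ≤ 1 := by
      have := finrank_span_le_card (R := ℂ) ({x} : Set V)
      simpa using this
    omega
  obtain ⟨a, ha, hat⟩ := key t
  obtain ⟨b, hb, hbs⟩ := key s
  by_cases h1 : a ∈ Submodule.span ℂ {s}
  · by_cases h2 : b ∈ Submodule.span ℂ {t}
    · refine ⟨a + b, S.add_mem ha hb, fun h => hat ?_, fun h => hbs ?_⟩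
      · have := Submodule.sub_mem _ h h2
        rwa [add_sub_cancel_right] at this
      · have := Submodule.sub_mem _ h h1
        rwa [add_sub_cancel_left] at this
    · exact ⟨b, hb, h2, hbs⟩
  · exact ⟨a, ha, hat, h1⟩

end

section

variable {R R' : Type*} [Ring R] [Algebra ℂ R] [Ring R'] [Algebra ℂ R']
  {M : Submodule ℂ R} {M' : Submodule ℂ R'} {J J' : Type*}
  {T : J → Submodule ℂ R} {T' : J' → Submodule ℂ R'}

/-- A family of subspaces (blocks) of `M` such that two linearly independent elements with product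
zero lie in one block, and the elements of a block are connected by such pairs. -/
structure Blocks (M : Submodule ℂ R) (T : J → Submodule ℂ R) : Prop where
  le : ∀ j, T j ≤ M
  ne : ∀ j, ∃ t ∈ T j, t ≠ 0
  uniq : ∀ x : R, x ≠ 0 → ∀ i j : J, x ∈ T i → x ∈ T j → i = j
  rel : ∀ t ∈ M, ∀ s ∈ M, t * s = 0 → Indep2 t s → ∃ j, t ∈ T j ∧ s ∈ T j
  link : ∀ j, ∀ t ∈ T j, ∀ s ∈ T j, t ≠ 0 → s ≠ 0 →
    ∃ u ∈ T j, Indep2 t u ∧ t * u = 0 ∧ Indep2 u s ∧ u * s = 0

/-- Blocks together with a further part `N`. -/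
structure BlocksE (M : Submodule ℂ R) (T : J → Submodule ℂ R) (N : Submodule ℂ R) : Prop where
  le : ∀ j, T j ≤ M
  ne : ∀ j, ∃ t ∈ T j, t ≠ 0
  uniq : ∀ x : R, x ≠ 0 → ∀ i j : J, x ∈ T i → x ∈ T j → i = j
  off : ∀ x : R, x ≠ 0 → ∀ j, x ∈ T j → x ∉ N
  rel : ∀ t ∈ M, ∀ s ∈ M, t * s = 0 → Indep2 t s →
    (∃ j, t ∈ T j ∧ s ∈ T j) ∨ (t ∈ N ∧ s ∈ N)
  link : ∀ j, ∀ t ∈ T j, ∀ s ∈ T j, t ≠ 0 → s ≠ 0 →
    ∃ u ∈ T j, Indep2 t u ∧ t * u = 0 ∧ Indep2 u s ∧ u * s = 0

variable {N : Submodule ℂ R} {N' : Submodule ℂ R'}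

theorem BlocksE.map_le (h : BlocksE M T N) (h' : BlocksE M' T' N') (f : R ≃ₐ[ℂ] R')
    (hf : ∀ x ∈ M, f x ∈ M') (j : J) (hex : ∃ x ∈ T j, f x ∉ N') :
    ∃ j', ∀ x ∈ T j, f x ∈ T' j' := by
  have inj : ∀ v, f.toLinearMap v = 0 → v = 0 := fun v hv => by
    have : f v = 0 := hv
    rwa [map_eq_zero_iff f f.injective] at this
  have step : ∀ t ∈ T j, ∀ s ∈ T j, t * s = 0 → Indep2 t s →
      (∃ j', f t ∈ T' j' ∧ f s ∈ T' j') ∨ (f t ∈ N' ∧ f s ∈ N') := by
    intro t ht s hs h0 hts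
    refine h'.rel _ (hf _ (h.le j ht)) _ (hf _ (h.le j hs)) ?_ ?_
    · rw [← map_mul, h0, map_zero]
    · exact hts.map f.toLinearMap inj
  obtain ⟨t, ht, htN⟩ := hex
  have ht0 : t ≠ 0 := by
    rintro rfl
    rw [map_zero] at htN
    exact htN N'.zero_mem
  have step' : ∀ s ∈ T j, t * s = 0 → Indep2 t s → ∃ j', f t ∈ T' j' ∧ f s ∈ T' j' := by
    intro s hs h0 hts
    rcases step t ht s hs h0 hts with h1 | h1
    · exact h1
    · exact absurd h1.1 htN
  obtain ⟨u, hu, hi, hz, -, -⟩ := h.link j t ht t ht ht0 ht0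
  obtain ⟨j', hj, -⟩ := step' u hu hz hi
  refine ⟨j', fun s hs => ?_⟩
  by_cases hs0 : s = 0
  · rw [hs0, map_zero]
    exact Submodule.zero_mem _
  · obtain ⟨v, hv, hi1, hz1, hi2, hz2⟩ := h.link j t ht s hs ht0 hs0
    obtain ⟨a, ha, ha'⟩ := step' v hv hz1 hi1
    have hft : f t ≠ 0 := fun h1 => ht0 (inj t h1)
    have hfv : f v ≠ 0 := fun h1 => hi1.right (inj v h1)
    have e1 := h'.uniq _ hft _ _ hj ha
    rcases step v hv s hs hz2 hi2 with ⟨b, hb, hb'⟩ | h1
    · have e2 := h'.uniq _ hfv _ _ ha' hb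
      rw [e1, e2]
      exact hb'
    · exact absurd h1.1 (h'.off _ hfv a ha')

/-- An isomorphism of algebras which maps one total space onto the other one, and no block into
the further part, permutes the blocks. -/
theorem BlocksE.exists_equiv (h : BlocksE M T N) (h' : BlocksE M' T' N') (f : R ≃ₐ[ℂ] R')
    (hf : ∀ x, x ∈ M ↔ f x ∈ M') (hex : ∀ j, ∃ x ∈ T j, f x ∉ N')
    (hex' : ∀ j, ∃ x ∈ T' j, f.symm x ∉ N) :
    ∃ π : J ≃ J', ∀ j, ∀ x, x ∈ T j ↔ f x ∈ T' (π j) := by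
  have hf' : ∀ x ∈ M', f.symm x ∈ M := fun x hx => by
    rw [hf, AlgEquiv.apply_symm_apply]
    exact hx
  choose p hp using fun j => h.map_le h' f (fun x hx => (hf x).1 hx) j (hex j)
  choose q hq using fun j => h'.map_le h f.symm hf' j (hex' j)
  have hqp : ∀ j, q (p j) = j := fun j => by
    obtain ⟨t, ht, ht0⟩ := h.ne j
    have h1 := hq _ _ (hp j t ht)
    rw [AlgEquiv.symm_apply_apply] at h1
    exact h.uniq _ ht0 _ _ h1 ht
  have hpq : ∀ j, p (q j) = j := fun j => by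
    obtain ⟨t, ht, ht0⟩ := h'.ne j
    have h1 := hp _ _ (hq j t ht)
    rw [AlgEquiv.apply_symm_apply] at h1
    exact h'.uniq _ ht0 _ _ h1 ht
  refine ⟨⟨p, q, hqp, hpq⟩, fun j x => ⟨hp j x, fun hx => ?_⟩⟩
  have h1 := hq _ _ hx
  change f.symm (f x) ∈ T (q (p j)) at h1
  rw [AlgEquiv.symm_apply_apply, hqp] at h1
  exact h1

end

end Pool.Agent.CY94
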