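import Pool.Agent.Helper94.CY.Rank

/-!
# Strict Calabi-Yau threefolds
-/

set_option autoImplicit false

namespace Pool.Agent.Hodge81

open Complex Module LaurentPolynomial
open Pool.Agent.CY94

/-- A strict Calabi-Yau threefold: the canonical bundle is trivial and there are no one- and
two-forms. -/
structure IsThreefold {A : Type*} [Ring A] [Algebra ℂ A] {Z : HodgeRing 3 A}
    (P : PolyvectorAction Z) : Prop where
  one : Z.h 0 1 = 0
  two : Z.h 0 2 = 0
  canonical : P.TrivialCanonical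

section general

variable {n : ℕ} {A : Type*} [Ring A] [Algebra ℂ A] {X : HodgeRing n A} {P : PolyvectorAction X}

/-- the generator of `H^{n,0}` is not zero and spans -/
theorem span_top {v : A} (hsurj : ∀ a b, b ≤ n → ∀ w ∈ X.H (n - b) a, ∃ f ∈ P.T a b, f v = w)
    {w : A} (hw : w ∈ X.H n 0) : ∃ c : ℂ, w = c • v := by
  obtain ⟨f, hf, rfl⟩ := hsurj 0 0 (Nat.zero_le n) w hw
  obtain ⟨c, rfl⟩ := P.T_zero_zero hf
  exact ⟨c, rfl⟩

theorem top_ne {v : A} (hsurj : ∀ a b, b ≤ n → ∀ w ∈ X.H (n - b) a, ∃ f ∈ P.T a b, f v = w) :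
    v ≠ 0 := by
  rintro rfl
  have := X.nontrivial
  obtain ⟨f, -, hf⟩ := hsurj 0 n le_rfl 1 (by rw [Nat.sub_self]; exact X.one_mem)
  rw [map_zero] at hf
  exact zero_ne_one hf

theorem PolyvectorAction.TrivialCanonical.h_top (h : P.TrivialCanonical) : X.h n 0 = 1 := by
  obtain ⟨v, hv, h1⟩ := h
  have hs := fun a b (hb : b ≤ n) => (h1 a b hb).2
  refine finrank_eq_one_iff'.2 ⟨⟨v, hv⟩, fun h0 => top_ne hs (congrArg Subtype.val h0),
    fun w => ?_⟩
  obtain ⟨c, hc⟩ := span_top hs w.2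
  exact ⟨c, Subtype.ext hc.symm⟩

theorem omega_ne (X : HodgeRing n A) (hn : 1 ≤ n) : X.omega ≠ 0 := by
  intro h0
  have := X.nontrivial
  obtain ⟨r, hr, h1⟩ := X.hodgeRiemann 0 0 1 X.one_mem (by omega)
    (by rw [h0, zero_pow (by omega), zero_mul]) one_ne_zero
  rw [h0, zero_pow (by omega), zero_mul, zero_mul, map_zero, mul_zero] at h1
  have h2 : r = 0 := by exact_mod_cast h1.symm
  exact hr.ne' h2

end general

section three

variable {A : Type*} [Ring A] [Algebra ℂ A] [FiniteDimensional ℂ A] {Z : HodgeRing 3 A}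
  {P : PolyvectorAction Z}

/-- the generating function of the Hodge numbers of a strict Calabi-Yau threefold -/
noncomputable def cyGen {R : Type*} [CommRing R] (w : ℕ × ℕ → R) (x : ℕ × ℕ) : R :=
  w (0, 0) + w (3, 0) + w (0, 3) + w (3, 3) + (x.1 : R) * (w (1, 1) + w (2, 2)) +
    (x.2 : R) * (w (2, 1) + w (1, 2))

/-- the Hodge diamond -/
theorem IsThreefold.gen_eq' (h : IsThreefold P) {R : Type*} [CommRing R] (w : ℕ × ℕ → R) :
    Z.gen w = cyGen w (Z.h 1 1, Z.h 2 1) := by
  have h00 : Z.h 0 0 = 1 := Z.connected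
  have h30 : Z.h 3 0 = 1 := h.canonical.h_top
  have h01 := h.one
  have h02 := h.two
  have h03 : Z.h 0 3 = 1 := by rw [Z.h_conj, h30]
  have h10 : Z.h 1 0 = 0 := by rw [Z.h_conj, h01]
  have h20 : Z.h 2 0 = 0 := by rw [Z.h_conj, h02]
  have h12 : Z.h 1 2 = Z.h 2 1 := Z.h_conj 1 2
  have h13 : Z.h 1 3 = 0 := by
    have := Z.h_serre (p := 2) (q := 0) (by norm_num) (by norm_num)
    rwa [h20] at this
  have h31 : Z.h 3 1 = 0 := by rw [Z.h_conj, h13]
  have h22 : Z.h 2 2 = Z.h 1 1 := Z.h_serre (p := 1) (q := 1) (by norm_num) (by norm_num)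
  have h23 : Z.h 2 3 = 0 := by
    have := Z.h_serre (p := 1) (q := 0) (by norm_num) (by norm_num)
    rwa [h10] at this
  have h32 : Z.h 3 2 = 0 := by rw [Z.h_conj, h23]
  have h33 : Z.h 3 3 = 1 := by
    have := Z.h_serre (p := 0) (q := 0) (by norm_num) (by norm_num)
    rwa [h00] at this
  unfold HodgeRing.gen cyGen
  rw [Finset.sum_product]
  simp only [Finset.sum_range_succ, Finset.sum_range_zero]
  rw [h00, h01, h02, h03, h10, h12, h13, h20, h22, h23, h30, h31, h32, h33]
  push_cast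
  ring

theorem IsThreefold.gen_eq (h : IsThreefold P) :
    Z.gen (HodgeRing.wt 1) = cyPoly (Z.h 1 1, Z.h 2 1) := by
  rw [h.gen_eq']
  unfold cyGen cyPoly HodgeRing.wt
  norm_num
  ring

theorem IsThreefold.column_two (h : IsThreefold P) : Z.column 2 = ⊥ := by
  have h1 := Z.coeff_gen_column 2
  rw [h.gen_eq, coeff_cyPoly] at h1
  norm_num at h1
  exact Submodule.finrank_eq_zero.1 (by exact_mod_cast h1.symm)

theorem IsThreefold.column_neg_two (h : IsThreefold P) : Z.column (-2) = ⊥ := by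
  have h1 := Z.coeff_gen_column (-2)
  rw [h.gen_eq, coeff_cyPoly] at h1
  norm_num at h1
  exact Submodule.finrank_eq_zero.1 (by exact_mod_cast h1.symm)

theorem IsThreefold.column_three (h : IsThreefold P) : finrank ℂ (Z.column 3) = 1 := by
  have h1 := Z.coeff_gen_column 3
  rw [h.gen_eq, coeff_cyPoly] at h1
  norm_num at h1
  exact_mod_cast h1.symm

theorem IsThreefold.column_neg_three (h : IsThreefold P) : finrank ℂ (Z.column (-3)) = 1 := by
  have h1 := Z.coeff_gen_column (-3)
  rw [h.gen_eq, coeff_cyPoly] at h1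
  norm_num at h1
  exact_mod_cast h1.symm

theorem IsThreefold.column_zero (h : IsThreefold P) : 4 ≤ finrank ℂ (Z.column 0) := by
  have h1 := Z.coeff_gen_column 0
  rw [h.gen_eq, coeff_cyPoly] at h1
  norm_num at h1
  have h2 : 1 ≤ Z.h 1 1 := by
    unfold HodgeRing.h
    rw [Nat.one_le_iff_ne_zero]
    intro h0
    have h3 := Z.omega_mem
    rw [Submodule.finrank_eq_zero.1 h0, Submodule.mem_bot] at h3
    exact omega_ne Z (by norm_num) h3
  omega

omit [FiniteDimensional ℂ A] in
/-- a nonzero element of degree three does not vanish on the column of index zero -/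
theorem exists_value {v : A} (hv : v ∈ Z.H 3 0)
    (hinj : ∀ a b, b ≤ 3 → ∀ f ∈ P.T a b, f v = 0 → f = 0) {t : Module.End ℂ A}
    (ht : t ∈ P.total 3) (ht0 : t ≠ 0) : ∃ x ∈ Z.column 0, t x ≠ 0 := by
  obtain ⟨g, hg, rfl⟩ := P.exists_sum ht
  obtain ⟨b, hb, hb0⟩ : ∃ b ∈ Finset.range (3 + 1), g b ≠ 0 := by
    by_contra h
    push Not at h
    exact ht0 (Finset.sum_eq_zero h)
  have hb3 : b ≤ 3 := by rw [Finset.mem_range] at hb; omega
  have h1 : g b v ≠ 0 := fun h => hb0 (hinj _ b hb3 _ (hg b hb) h)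
  have h2 : g b v ∈ Z.H (3 - b) (3 - b) := by
    have h3 := P.degree (3 - b) b (3 - b) 0 (g b) v (hg b hb)
      (by rw [Nat.sub_add_cancel hb3]; exact hv)
    rwa [zero_add] at h3
  obtain ⟨x, hx, hx0⟩ := Z.exists_int_ne (Nat.sub_le 3 b) (Nat.sub_le 3 b) h2 h1
  rw [show 3 - (3 - b) = b by omega] at hx
  refine ⟨x, Z.mem_column (by simp) hx, fun h0 => hx0 ?_⟩
  have h3 : (∑ i ∈ Finset.range (3 + 1), g i) x = g b x := by
    rw [LinearMap.sum_apply]
    refine Finset.sum_eq_single b (fun i hi hib => ?_) (fun h => absurd hb h)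
    rcases Nat.lt_or_ge b i with h | h
    · exact P.vanish (3 - i) i b b (g i) x (hg i hi) h hx
    · have h4 := P.degree (3 - i) i (b - i) b (g i) x (hg i hi)
        (by rw [Nat.sub_add_cancel h]; exact hx)
      rw [Finset.mem_range] at hi
      rw [Z.bounded _ _ (Or.inr (by omega)), Submodule.mem_bot] at h4
      exact h4
  rw [h3] at h0
  have h4 := P.adjoint (3 - b) b b b (g b) x v (hg b hb) hx
  rw [h0, zero_mul, map_zero] at h4
  have h5 : Z.int (x * g b v) = 0 := by
    rcases mul_eq_zero.1 h4.symm with h6 | h6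
    · exact absurd h6 (pow_ne_zero _ (by norm_num))
    · exact h6
  rw [Z.comm _ _ _ _ _ _ h2 hx, map_smul, h5, smul_zero]

/-- the ranks of the elements of degree three -/
theorem IsThreefold.rkfL_eq (h : IsThreefold P) {t : Module.End ℂ A} (ht : t ∈ P.total 3)
    (ht0 : t ≠ 0) : Z.rkfL t = T 3 + 1 := by
  obtain ⟨v, hv, h1⟩ := h.canonical
  have hi := fun a b (hb : b ≤ 3) => (h1 a b hb).1
  have hs := fun a b (hb : b ≤ 3) => (h1 a b hb).2
  have e : (T 3 + 1 : ℤ[T;T⁻¹]) = C 1 * T 3 + C 1 * T 0 := by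
    rw [map_one, one_mul, one_mul, T_zero]
  ext d
  rw [Z.coeff_rkfL, e, AddMonoidAlgebra.coeff_add, Finsupp.add_apply, coeff_CT, coeff_CT]
  have hmap : (Z.column d).map t ≤ Z.column (d - 3) := by
    rintro _ ⟨x, hx, rfl⟩
    exact P.total_column ht hx
  unfold HodgeRing.rkf
  by_cases h3 : (3 : ℤ) = d
  · subst h3
    rw [if_pos rfl, if_neg (by norm_num), add_zero]
    have h4 : finrank ℂ ((Z.column 3).map t) ≤ 1 := by
      rw [← h.column_three]
      exact Submodule.finrank_map_le _ _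
    have h5 : finrank ℂ ((Z.column 3).map t) ≠ 0 := by
      rw [Ne, Submodule.finrank_eq_zero]
      intro h6
      have h7 : t v ∈ (Z.column 3).map t := ⟨v, Z.mem_column (by simp) hv, rfl⟩
      rw [h6, Submodule.mem_bot] at h7
      exact ht0 (PolyvectorAction.total_eq_zero hv hi ht h7)
    have h6 : finrank ℂ ((Z.column 3).map t) = 1 := by omega
    rw [h6]
    rfl
  · rw [if_neg h3, zero_add]
    by_cases h0 : (0 : ℤ) = d
    · subst h0
      rw [if_pos rfl]
      have h4 : finrank ℂ ((Z.column 0).map t) ≤ 1 := by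
        rw [← h.column_neg_three]
        exact Submodule.finrank_mono hmap
      have h5 : finrank ℂ ((Z.column 0).map t) ≠ 0 := by
        rw [Ne, Submodule.finrank_eq_zero]
        intro h6
        obtain ⟨x, hx, hx0⟩ := exists_value hv hi ht ht0
        have h7 : t x ∈ (Z.column 0).map t := ⟨x, hx, rfl⟩
        rw [h6, Submodule.mem_bot] at h7
        exact hx0 h7
      have h6 : finrank ℂ ((Z.column 0).map t) = 1 := by omega
      rw [h6]
      rfl
    · rw [if_neg h0]
      have h4 : Z.column d = ⊥ ∨ Z.column (d - 3) = ⊥ := by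
        by_cases hd : d < -3 ∨ 3 < d
        · exact Or.inl (Z.column_far (by push_cast; omega))
        · by_cases hd' : d - 3 < -3
          · exact Or.inr (Z.column_far (by push_cast; omega))
          · obtain rfl | rfl : d = 1 ∨ d = 2 := by omega
            · exact Or.inr (by norm_num; exact h.column_neg_two)
            · exact Or.inl h.column_two
      rcases h4 with h4 | h4
      · rw [h4, Submodule.map_bot, finrank_bot]
        rfl
      · rw [h4, le_bot_iff] at hmap
        rw [hmap, finrank_bot]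
        rfl

omit [FiniteDimensional ℂ A] in
/-- products of two elements of degree three are determined by their value on the generator -/
theorem mul_eq_zero_of {v : A}
    (hs : ∀ a b, b ≤ 3 → ∀ w ∈ Z.H (3 - b) a, ∃ f ∈ P.T a b, f v = w) {t s : Module.End ℂ A}
    (ht : t ∈ P.total 3) (hs' : s ∈ P.total 3) (h0 : t (s v) = 0) : t * s = 0 := by
  refine PolyvectorAction.ext_H Z fun p q x hx => ?_
  rw [Module.End.mul_apply, LinearMap.zero_apply]
  have h1 := P.total_column ht (P.total_column hs' (Z.mem_column rfl hx))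
  by_cases hp : p ≤ 3
  · by_cases hpq : (p : ℤ) - q < 3
    · rw [Z.column_far (by push_cast; omega), Submodule.mem_bot] at h1
      exact h1
    · obtain ⟨rfl, rfl⟩ : p = 3 ∧ q = 0 := by omega
      obtain ⟨c, rfl⟩ := span_top hs hx
      rw [map_smul, map_smul, h0, smul_zero]
  · rw [Z.bounded p q (Or.inl (by omega)), Submodule.mem_bot] at hx
    rw [hx, map_zero, map_zero]

theorem IsThreefold.hasBlocks (h : IsThreefold P) : HasBlocks P {(Z.h 1 1, Z.h 2 1)} := by
  have hcol1 : P.total 1 = ⊥ := h.canonical.total_eq_bot (k := 1) (by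
    norm_num
    exact h.column_two)
  obtain ⟨v, hv, h1⟩ := h.canonical
  have hi := fun a b (hb : b ≤ 3) => (h1 a b hb).1
  have hs := fun a b (hb : b ≤ 3) => (h1 a b hb).2
  have hdim : 4 ≤ finrank ℂ (P.total 3) := by
    refine h.column_zero.trans ?_
    have h2 : Z.column 0 ≤ (P.total 3).map (LinearMap.applyₗ v) := by
      intro w hw
      obtain ⟨f, hf, e⟩ := PolyvectorAction.total_surj (P := P) hs (k := 3)
        (by norm_num; exact hw)
      exact ⟨f, hf, e⟩
    exact (Submodule.finrank_mono h2).trans (Submodule.finrank_map_le _ _)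
  have step : ∀ (ψ : Module.End ℂ A →ₗ[ℂ] A) (S : Submodule ℂ (Module.End ℂ A)),
      S ≤ P.total 3 → (∀ u ∈ P.total 3, ψ u ∈ Z.column (-3)) →
      finrank ℂ S ≤ finrank ℂ (S ⊓ LinearMap.ker ψ : Submodule ℂ (Module.End ℂ A)) + 1 := by
    intro ψ S hS hψ
    have h2 := finrank_map_add_inf ψ S
    have h3 : finrank ℂ (S.map ψ) ≤ 1 := by
      rw [← h.column_neg_three]
      refine Submodule.finrank_mono ?_
      rintro _ ⟨u, hu, rfl⟩
      exact hψ u (hS hu)
    omega
  have hvc : v ∈ Z.column 3 := Z.mem_column (by simp) hv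
  refine ⟨hcol1, Unit, inferInstance, fun _ => P.total 3, fun _ => (Z.h 1 1, Z.h 2 1),
    ⟨fun _ => le_rfl, fun _ => ?_, fun _ _ _ _ _ _ => rfl, fun t ht s hs' _ _ =>
      ⟨(), ht, hs'⟩, fun _ t ht s hs' ht0 hs0 => ?_⟩, fun _ t ht ht0 => ?_, fun _ => ?_, rfl⟩
  · have h2 : P.total 3 ≠ ⊥ := by
      intro h3
      rw [h3, finrank_bot] at hdim
      omega
    obtain ⟨t, ht, ht0⟩ := Submodule.exists_mem_ne_zero_of_ne_bot h2
    exact ⟨t, ht, ht0⟩
  · -- the two linear conditions
    let ψ1 : Module.End ℂ A →ₗ[ℂ] A := t ∘ₗ LinearMap.applyₗ v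
    let ψ2 : Module.End ℂ A →ₗ[ℂ] A := LinearMap.applyₗ (s v)
    have e1 := step ψ1 (P.total 3) le_rfl fun u hu => by
      have h2 := P.total_column ht (P.total_column hu hvc)
      norm_num at h2
      exact h2
    have e2 := step ψ2 (P.total 3 ⊓ LinearMap.ker ψ1) inf_le_left fun u hu => by
      have h2 := P.total_column hu (P.total_column hs' hvc)
      norm_num at h2
      exact h2
    obtain ⟨u, hu, hut, hus⟩ := exists_off_lines
      (P.total 3 ⊓ LinearMap.ker ψ1 ⊓ LinearMap.ker ψ2) (by omega) t s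
    obtain ⟨⟨hu1, hu2⟩, hu3⟩ := hu
    refine ⟨u, hu1, Indep2.of_notMem ht0 hut, mul_eq_zero_of hs ht hu1 hu2,
      (Indep2.of_notMem hs0 hus).symm, mul_eq_zero_of hs hu1 hs' hu3⟩
  · rw [h.rkfL_eq ht ht0, h.gen_eq]
  · have h03 : Z.h 0 3 = 1 := by rw [Z.h_conj]; exact h.canonical.h_top
    have h2 : Z.H 0 3 ≠ ⊥ := by
      intro h3
      unfold HodgeRing.h at h03
      rw [h3, finrank_bot] at h03
      exact zero_ne_one h03
    obtain ⟨y, hy, hy0⟩ := Submodule.exists_mem_ne_zero_of_ne_bot h2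
    exact ⟨y, hy, hy0, P.mem_total (a := 3) (b := 0) rfl ((P.functions 3 _).2 ⟨y, hy, rfl⟩)⟩

end three

end Pool.Agent.Hodge81
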