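import Pool.Agent.Helper51.SY.Sl2
import Pool.Agent.Helper94.CY.Three

/-!
# Products with any number of strict Calabi-Yau threefolds
-/

set_option autoImplicit false

namespace Pool.Agent.Hodge81

open Complex Module LaurentPolynomial
open Pool.Agent.CY94

universe u

/-- A product of strict Calabi-Yau threefolds, with the list of the pairs `(h^{1,1}, h^{2,1})` of
the factors. -/
inductive IsThreefoldProduct : ∀ {n : ℕ} {A : Type u} [Ring A] [Algebra ℂ A]
    {X : HodgeRing n A}, PolyvectorAction X → Multiset (ℕ × ℕ) → Prop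
  | single {A : Type u} [Ring A] [Algebra ℂ A] [FiniteDimensional ℂ A] {Z : HodgeRing 3 A}
      (P : PolyvectorAction Z) (h : IsThreefold P) :
      IsThreefoldProduct P {(Z.h 1 1, Z.h 2 1)}
  | prod {n a b : ℕ} {A C D : Type u} [Ring A] [Algebra ℂ A] [FiniteDimensional ℂ A] [Ring C]
      [Algebra ℂ C] [FiniteDimensional ℂ C] [Ring D] [Algebra ℂ D] [FiniteDimensional ℂ D]
      {X : HodgeRing n A} {W : HodgeRing a C} {Z : HodgeRing b D} (U : Product X W Z)
      (P : PolyvectorAction X) (PW : PolyvectorAction W) (PZ : PolyvectorAction Z)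
      (K : U.Kuenneth P PW PZ) (L M : Multiset (ℕ × ℕ)) (hW : IsThreefoldProduct PW L)
      (hZ : IsThreefoldProduct PZ M) : IsThreefoldProduct P (L + M)

section

variable {n : ℕ} {A : Type u} [Ring A] [Algebra ℂ A] {X : HodgeRing n A} {P : PolyvectorAction X}
  {L : Multiset (ℕ × ℕ)}

theorem IsThreefoldProduct.hasBlocks (h : IsThreefoldProduct P L) : HasBlocks P L := by
  induction h with
  | single P h => exact h.hasBlocks
  | prod U P PW PZ K L M _ _ ih1 ih2 => exact HasBlocks.product K ih1 ih2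

theorem IsThreefoldProduct.gen_eq (h : IsThreefoldProduct P L) {R : Type*} [CommRing R]
    (w : ℕ × ℕ → R) (hw : ∀ x y, w (x + y) = w x * w y) :
    X.gen w = (L.map (cyGen w)).prod := by
  induction h with
  | single P h => rw [Multiset.map_singleton, Multiset.prod_singleton, h.gen_eq']
  | prod U P PW PZ K L M _ _ ih1 ih2 =>
    rw [U.gen_mul w hw, ih1, ih2, Multiset.map_add, Multiset.prod_add]

theorem gen_ne_zero [FiniteDimensional ℂ A] (X : HodgeRing n A) :
    X.gen (HodgeRing.wt 1) ≠ 0 := by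
  intro h0
  have := X.nontrivial
  have h1 := X.coeff_gen_column 0
  rw [h0, AddMonoidAlgebra.coeff_zero, Finsupp.zero_apply] at h1
  have h2 : finrank ℂ (X.column 0) = 0 := by exact_mod_cast h1.symm
  have h3 := X.mem_column (i := 0) (by simp) X.one_mem
  rw [Submodule.finrank_eq_zero.1 h2, Submodule.mem_bot] at h3
  exact one_ne_zero h3

end

section forms

variable {n : ℕ} {A : Type*} [Ring A] [Algebra ℂ A] [FiniteDimensional ℂ A] {X : HodgeRing n A}
  {P : PolyvectorAction X}

/-- the symmetry of the numbers of forms if the canonical bundle is trivial -/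
theorem PolyvectorAction.TrivialCanonical.forms_symm (hc : P.TrivialCanonical) {k : ℕ}
    (hk : k ≤ n) : X.h 0 k = X.h 0 (n - k) := by
  obtain ⟨v, hv, h1⟩ := hc
  have h2 : (X.H 0 k).map (LinearMap.mulRight ℂ v) = X.H n k := by
    apply le_antisymm
    · rintro _ ⟨x, hx, rfl⟩
      have h3 := X.mul_mem 0 k n 0 x v hx hv
      simpa using h3
    · intro w hw
      obtain ⟨f, hf, rfl⟩ := (h1 k 0 (Nat.zero_le n)).2 w hw
      obtain ⟨x, hx, rfl⟩ := (P.functions k f).1 hf
      exact ⟨x, hx, rfl⟩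
  have h3 : finrank ℂ ((X.H 0 k).map (LinearMap.mulRight ℂ v)) = X.h 0 k := by
    refine finrank_map_of_inj' _ _ fun x hx h0 => ?_
    have h4 := (h1 k 0 (Nat.zero_le n)).1 (LinearMap.mulLeft ℂ x)
      ((P.functions k _).2 ⟨x, hx, rfl⟩) h0
    have h5 := LinearMap.congr_fun h4 1
    simpa using h5
  have h4 := X.h_serre (p := 0) (q := n - k) (Nat.zero_le n) (Nat.sub_le n k)
  rw [Nat.sub_zero, Nat.sub_sub_self hk] at h4
  rw [← h4, ← h3, h2]
  rfl

/-- no polyvector fields without forms -/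
theorem PolyvectorAction.TrivialCanonical.T_zero_eq (hc : P.TrivialCanonical) {k : ℕ}
    (hk : X.h 0 k = 0) : P.T 0 k = ⊥ := by
  rw [eq_bot_iff]
  intro f hf
  rw [Submodule.mem_bot]
  rcases Nat.lt_or_ge n k with h | h
  · exact P.T_eq_zero h hf
  · have h1 : X.h (n - k) 0 = 0 := by rw [X.h_conj, ← hc.forms_symm h, hk]
    obtain ⟨v, hv, h2⟩ := hc
    refine (h2 0 k h).1 f hf ?_
    have h3 := P.degree 0 k (n - k) 0 f v hf (by rw [Nat.sub_add_cancel h]; exact hv)
    rw [add_zero, Submodule.finrank_eq_zero.1 h1, Submodule.mem_bot] at h3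
    exact h3

theorem PolyvectorAction.TrivialCanonical.total_one (hc : P.TrivialCanonical)
    (h1 : X.h 0 1 = 0) : P.total 1 = ⊥ := by
  rw [eq_bot_iff]
  intro f hf
  refine P.total_induct (Q := fun f => f ∈ (⊥ : Submodule ℂ (Module.End ℂ A)))
    (fun a b hab f hf => ?_) (Submodule.zero_mem _)
    (fun f g hf hg => Submodule.add_mem _ hf hg) hf
  obtain ⟨rfl, rfl⟩ | ⟨rfl, rfl⟩ : (a = 0 ∧ b = 1) ∨ (a = 1 ∧ b = 0) := by omega
  · rw [hc.T_zero_eq h1] at hf
    exact hf
  · obtain ⟨x, hx, rfl⟩ := (P.functions 1 f).1 hf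
    rw [Submodule.finrank_eq_zero.1 h1, Submodule.mem_bot] at hx
    rw [Submodule.mem_bot, hx]
    ext v
    simp

/-- polyvector fields of degree three kill the multiples of a top form in the second direction if
there are no three-forms -/
theorem PolyvectorAction.TrivialCanonical.mul_top (hc : P.TrivialCanonical)
    (h3 : X.h 0 3 = 0) {y : A} (hy : y ∈ X.H 0 n) {f : Module.End ℂ A} (hf : f ∈ P.total 3) :
    f * LinearMap.mulLeft ℂ y = 0 := by
  refine P.total_induct (Q := fun f => f * LinearMap.mulLeft ℂ y = 0)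
    (fun a b hab f hf => ?_) (zero_mul _)
    (fun f g hf hg => by rw [add_mul, hf, hg, add_zero]) hf
  rcases Nat.eq_zero_or_pos a with rfl | ha
  · obtain rfl : b = 3 := by omega
    rw [hc.T_zero_eq h3, Submodule.mem_bot] at hf
    rw [hf, zero_mul]
  · refine PolyvectorAction.ext_H X fun p q w hw => ?_
    rw [Module.End.mul_apply, LinearMap.mulLeft_apply, LinearMap.zero_apply]
    have h4 := X.mul_mem 0 n p q y w hy hw
    rw [zero_add] at h4
    rcases Nat.lt_or_ge p b with h | h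
    · exact P.vanish a b p _ f _ hf h h4
    · obtain ⟨p', rfl⟩ : ∃ p', p = p' + b := ⟨p - b, by omega⟩
      have h5 := P.degree a b p' _ f _ hf h4
      rw [X.bounded _ _ (Or.inr (by omega)), Submodule.mem_bot] at h5
      exact h5

end forms

section main

variable {n r b : ℕ} {A B C D C' D' : Type u}
  [Ring A] [Algebra ℂ A] [FiniteDimensional ℂ A] [Ring B] [Algebra ℂ B] [FiniteDimensional ℂ B]
  [Ring C] [Algebra ℂ C] [FiniteDimensional ℂ C] [Ring D] [Algebra ℂ D] [FiniteDimensional ℂ D]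
  [Ring C'] [Algebra ℂ C'] [FiniteDimensional ℂ C']
  [Ring D'] [Algebra ℂ D'] [FiniteDimensional ℂ D']
  {X : HodgeRing n A} {Y : HodgeRing n B} {P : PolyvectorAction X} {Q : PolyvectorAction Y}
  {phi : A ≃ₗ[ℂ] B}

omit [FiniteDimensional ℂ D'] in
/-- a three-form of the second factor of `X` does not go to the polyvector fields of the
symplectic factor of `Y` -/
theorem conj_notMem (h : IsHochschildIso P Q phi) {S : HodgeRing (2 * r) C} {Z : HodgeRing b D}
    {S' : HodgeRing (2 * r) C'} {Z' : HodgeRing b D'} (U : Splitting X S Z)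
    (U' : Splitting Y S' Z') {PS' : PolyvectorAction S'} (hc : PS'.TrivialCanonical)
    (h3 : S'.h 0 3 = 0) {y : D} (hy : y ∈ Z.H 0 3) (hy0 : y ≠ 0) :
    phi.conjAlgEquiv ℂ (LinearMap.mulLeft ℂ (U.snd y)) ∉
      (PS'.total 3).map U'.toProduct.inlL := by
  rintro ⟨t, ht, e⟩
  -- the top form of the symplectic factor
  obtain ⟨y1, hy1, hyr⟩ := U'.symplectic.exists_conj
  have hY : U'.fst y1 ∈ Y.H 0 2 := U'.fst_mem _ _ _ hy1
  have h0 : U'.fst y1 ^ r ≠ 0 := by
    rw [← map_pow]
    intro h1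
    exact hyr (U'.toProduct.fst_inj _ h1)
  have hE := (evalE_spec (P := P) h P.eval hY).1
  have hEr := evalE_pow_ne (P := P) (X := X) h hY h0
  obtain ⟨x, hx, ex⟩ := U.toProduct.low_mem (k := 2) (fun l _ _ => by
    obtain rfl | rfl : l = 1 ∨ l = 2 := by omega
    · exact U.one_forms
    · exact U.two_forms) hE
  have hxr : x ^ r ≠ 0 := by
    intro h2
    apply hEr
    rw [← ex, ← map_pow, h2, map_zero]
  have htop : y1 ^ r ∈ S'.H 0 (2 * r) := S'.pow_mem_H hy1 r
  have k1 : U'.toProduct.inl t * LinearMap.mulLeft ℂ (U'.fst (y1 ^ r)) = 0 := by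
    rw [← U'.toProduct.inl_mulLeft, U'.toProduct.inl_mul, hc.mul_top h3 htop ht,
      ← Product.inlL_apply, map_zero]
  have k2 : phi.conjAlgEquiv ℂ (LinearMap.mulLeft ℂ (U.snd y)) *
      LinearMap.mulLeft ℂ (U'.fst (y1 ^ r)) = 0 := by
    rw [← e]
    exact k1
  have k3 := LinearMap.congr_fun k2 (phi (X.expo I))
  have k4 : phi (U.snd y * phi.symm (U'.fst (y1 ^ r) * phi (X.expo I))) = 0 := k3
  have k5 := (evalE_spec (P := P) h P.eval (Y.pow_mem_H hY r)).2
  rw [map_pow, k5, LinearEquiv.symm_apply_apply, phi.map_eq_zero_iff, evalE_pow h hY r, ← ex,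
    ← map_pow] at k4
  have k6 : U.snd y * U.fst (x ^ r) = 0 := by
    have := congrArg (fun a => a * X.expo (-I)) k4
    simp only [zero_mul] at this
    rwa [← mul_assoc, expo_cancel] at this
  have k7 : U.fst (x ^ r) * U.snd y = 0 := by
    rw [X.comm _ _ _ _ _ _ (U.fst_mem _ _ _ (S.pow_mem_H hx r)) (U.snd_mem _ _ _ hy), k6,
      smul_zero]
  obtain ⟨ξ, hξ⟩ := exists_functional hxr
  have k8 := U.toProduct.sl_apply ξ (x ^ r) y
  rw [k7, map_zero, hξ, one_smul] at k8
  exact hy0 k8.symm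

/-- the case of symplectic factors of the same dimension -/
theorem threefolds_aux (h : IsHochschildIso P Q phi) (hM : IsMukaiIsometry X Y phi)
    {S : HodgeRing (2 * r) C} {Z : HodgeRing b D} {S' : HodgeRing (2 * r) C'}
    {Z' : HodgeRing b D'} (U : Splitting X S Z) (U' : Splitting Y S' Z')
    {PS : PolyvectorAction S} {PZ : PolyvectorAction Z} {PS' : PolyvectorAction S'}
    {PZ' : PolyvectorAction Z'} (K : U.Kuenneth P PS PZ) (K' : U'.Kuenneth Q PS' PZ')
    (hS : PS.TrivialCanonical) (hS' : PS'.TrivialCanonical)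
    (s1 : S.h 0 1 = 0) (s3 : S.h 0 3 = 0) (s1' : S'.h 0 1 = 0) (s3' : S'.h 0 3 = 0)
    {L L' : Multiset (ℕ × ℕ)} (hZ : IsThreefoldProduct PZ L) (hZ' : IsThreefoldProduct PZ' L') :
    L = L' := by
  obtain ⟨J, _, TX, numX, bX, rX, fX, rfl⟩ := HasBlocks.extend K (hS.total_one s1) hZ.hasBlocks
  obtain ⟨J', _, TY, numY, bY, rY, fY, rfl⟩ :=
    HasBlocks.extend K' (hS'.total_one s1') hZ'.hasBlocks
  refine lists_eq h hM bX bY rX rY (fun j => ?_) (fun j => ?_) (gen_ne_zero X)
  · obtain ⟨y, hy, hy0, hyT⟩ := fX j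
    exact ⟨_, hyT, conj_notMem h U U' hS' s3' hy hy0⟩
  · obtain ⟨y, hy, hy0, hyT⟩ := fY j
    exact ⟨_, hyT, conj_notMem h.symm U' U hS s3 hy hy0⟩

end main

section final

variable {n r r' b b' : ℕ} {A B C D C' D' : Type u}
  [Ring A] [Algebra ℂ A] [FiniteDimensional ℂ A] [Ring B] [Algebra ℂ B] [FiniteDimensional ℂ B]
  [Ring C] [Algebra ℂ C] [FiniteDimensional ℂ C] [Ring D] [Algebra ℂ D] [FiniteDimensional ℂ D]
  [Ring C'] [Algebra ℂ C'] [FiniteDimensional ℂ C']
  [Ring D'] [Algebra ℂ D'] [FiniteDimensional ℂ D']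
  {X : HodgeRing n A} {Y : HodgeRing n B} {P : PolyvectorAction X} {Q : PolyvectorAction Y}
  {phi : A ≃ₗ[ℂ] B}

/-- Derived equivalent varieties which are products of a symplectic variety without one- and
three-forms and of any number of strict Calabi-Yau threefolds have the same Hodge numbers, and
the same lists of threefolds up to their Hodge numbers. -/
theorem threefolds_main (h : IsHochschildIso P Q phi) (hM : IsMukaiIsometry X Y phi)
    {S : HodgeRing (2 * r) C} {Z : HodgeRing b D} {S' : HodgeRing (2 * r') C'}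
    {Z' : HodgeRing b' D'} (U : Splitting X S Z) (U' : Splitting Y S' Z')
    {PS : PolyvectorAction S} {PZ : PolyvectorAction Z} {PS' : PolyvectorAction S'}
    {PZ' : PolyvectorAction Z'} (K : U.Kuenneth P PS PZ) (K' : U'.Kuenneth Q PS' PZ')
    (hS : PS.TrivialCanonical) (hS' : PS'.TrivialCanonical)
    (s1 : S.h 0 1 = 0) (s3 : S.h 0 3 = 0)
    {L L' : Multiset (ℕ × ℕ)} (hZ : IsThreefoldProduct PZ L) (hZ' : IsThreefoldProduct PZ' L') :
    L = L' ∧ ∀ p q, X.h p q = Y.h p q := by
  obtain ⟨rfl, rfl, hSS, -, -⟩ := splitting_main h hM U U'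
  obtain rfl : L = L' := threefolds_aux h hM U U' K K' hS hS' s1 s3 ((hSS 0 1).symm.trans s1)
    ((hSS 0 3).symm.trans s3) hZ hZ'
  refine ⟨rfl, ?_⟩
  have hg : X.gen uw = Y.gen uw := by
    rw [U.gen_mul _ uw_add, U'.gen_mul _ uw_add, gen_congr S S' uw hSS,
      hZ.gen_eq _ uw_add, hZ'.gen_eq _ uw_add]
  exact h_eq_of_gen X Y hg

end final

end Pool.Agent.Hodge81
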