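import Pool.Agent.Helper51.SY.PMain
import Pool.Agent.KT.Defs
import Pool.Agent.Helper94.CY.Lin

/-!
# Polyvector fields on varieties with trivial canonical bundle
-/

set_option autoImplicit false

namespace Pool.Agent.Hodge81

open Complex Module LaurentPolynomial

namespace HodgeRing

variable {n : ℕ} {A : Type*} [Ring A] [Algebra ℂ A] (X : HodgeRing n A)

/-- the rank of an operator on the column of index `d` -/
noncomputable def rkf (f : Module.End ℂ A) (d : ℤ) : ℕ := finrank ℂ ((X.column d).map f)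

/-- the polynomial of the ranks of an operator on the columns -/
noncomputable def rkfL (f : Module.End ℂ A) : ℤ[T;T⁻¹] :=
  ∑ d ∈ Finset.Icc (-(n : ℤ)) n, C (X.rkf f d : ℤ) * T d

theorem coeff_rkfL (f : Module.End ℂ A) (d : ℤ) : (X.rkfL f).coeff d = X.rkf f d := by
  unfold rkfL
  rw [AddMonoidAlgebra.coeff_sum, Finsupp.finsetSum_apply]
  have h1 : ∀ i ∈ Finset.Icc (-(n : ℤ)) n, (C (X.rkf f i : ℤ) * T i : ℤ[T;T⁻¹]).coeff d =
      if i = d then (X.rkf f d : ℤ) else 0 := by
    intro i _
    rw [← single_eq_C_mul_T, AddMonoidAlgebra.coeff_single, Finsupp.single_apply]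
    split_ifs with h
    · rw [h]
    · rfl
  rw [Finset.sum_congr rfl h1, Finset.sum_ite_eq' (Finset.Icc (-(n : ℤ)) n) d]
  split_ifs with h
  · rfl
  · rw [Finset.mem_Icc] at h
    unfold rkf
    rw [X.column_far (by omega), Submodule.map_bot, finrank_bot]
    rfl

/-- the dimension of a column as a coefficient -/
theorem coeff_gen_column [FiniteDimensional ℂ A] (d : ℤ) :
    (X.gen (wt 1)).coeff d = (finrank ℂ (X.column d) : ℤ) := by
  classical
  have h1 : X.gen (wt 1) = ∑ i, wt 1 (X.hbasis.deg i) := (X.hbasis.sum_deg (wt 1)).symm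
  rw [h1, AddMonoidAlgebra.coeff_sum, Finsupp.finsetSum_apply]
  have h2 : X.column d = Submodule.span ℂ (Set.range
      (fun i : {i // ((X.hbasis.deg i).1 : ℤ) - (X.hbasis.deg i).2 = d} =>
        X.hbasis.basis i.1)) := by
    rw [X.hbasis.column_eq d]
    congr 1
    ext v
    constructor
    · rintro ⟨i, hi, rfl⟩
      exact ⟨⟨i, hi⟩, rfl⟩
    · rintro ⟨i, rfl⟩
      exact ⟨i.1, i.2, rfl⟩
  have h3 := finrank_span_eq_card (R := ℂ)
    (b := fun i : {i // ((X.hbasis.deg i).1 : ℤ) - (X.hbasis.deg i).2 = d} => X.hbasis.basis i.1)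
    (X.hbasis.basis.linearIndependent.comp
      (fun i : {i // ((X.hbasis.deg i).1 : ℤ) - (X.hbasis.deg i).2 = d} => i.1)
      Subtype.val_injective)
  rw [h2, h3, Fintype.card_subtype, Finset.card_filter]
  push_cast
  refine Finset.sum_congr rfl fun i _ => ?_
  rw [coeff_wt, one_pow]

end HodgeRing

namespace PolyvectorAction

variable {n : ℕ} {A : Type*} [Ring A] [Algebra ℂ A] {X : HodgeRing n A} (P : PolyvectorAction X)

theorem ext_H (X : HodgeRing n A) {f g : Module.End ℂ A} (h : ∀ p q, ∀ v ∈ X.H p q, f v = g v) : f = g := by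
  have h1 : (⊤ : Submodule ℂ A) ≤ LinearMap.ker (f - g) := by
    rw [← X.iSup_H]
    refine iSup_le fun x v hv => ?_
    rw [LinearMap.mem_ker, LinearMap.sub_apply, sub_eq_zero]
    exact h _ _ v hv
  ext v
  have h2 : v ∈ LinearMap.ker (f - g) := h1 trivial
  rw [LinearMap.mem_ker, LinearMap.sub_apply, sub_eq_zero] at h2
  exact h2

/-- contraction with more vector fields than the dimension is zero -/
theorem T_eq_zero {a b : ℕ} (hb : n < b) {f : Module.End ℂ A} (hf : f ∈ P.T a b) : f = 0 := by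
  refine ext_H X fun p q v hv => ?_
  rw [LinearMap.zero_apply]
  rcases Nat.lt_or_ge n p with h | h
  · rw [X.bounded p q (Or.inl h), Submodule.mem_bot] at hv
    rw [hv, map_zero]
  · exact P.vanish a b p q f v hf (by omega) hv

/-- contractions of degree `k` lower the column by `k` -/
theorem total_column {k : ℕ} {f : Module.End ℂ A} (hf : f ∈ P.total k) {d : ℤ} {v : A}
    (hv : v ∈ X.column d) : f v ∈ X.column (d - k) := by
  refine P.total_induct (Q := fun f => f v ∈ X.column (d - k)) (fun a b hab f hf => ?_)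
    (by rw [LinearMap.zero_apply]; exact Submodule.zero_mem _)
    (fun f g hf hg => by rw [LinearMap.add_apply]; exact Submodule.add_mem _ hf hg) hf
  refine X.column_induct (P := fun v => f v ∈ X.column (d - k)) (fun p q hpq v hv => ?_)
    (by rw [map_zero]; exact Submodule.zero_mem _)
    (fun a b ha hb => by rw [map_add]; exact Submodule.add_mem _ ha hb) hv
  rcases Nat.lt_or_ge p b with h | h
  · rw [P.vanish a b p q f v hf h hv]
    exact Submodule.zero_mem _
  · obtain ⟨p', rfl⟩ : ∃ p', p = p' + b := ⟨p - b, by omega⟩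
    exact X.mem_column (by push_cast at hpq ⊢; omega) (P.degree a b p' q f v hf hv)

/-- elements of degree `k` as sums -/
theorem exists_sum {k : ℕ} {f : Module.End ℂ A} (hf : f ∈ P.total k) :
    ∃ g : ℕ → Module.End ℂ A, (∀ b ∈ Finset.range (k + 1), g b ∈ P.T (k - b) b) ∧
      f = ∑ b ∈ Finset.range (k + 1), g b := by
  refine P.total_induct (Q := fun f => ∃ g : ℕ → Module.End ℂ A,
    (∀ b ∈ Finset.range (k + 1), g b ∈ P.T (k - b) b) ∧ f = ∑ b ∈ Finset.range (k + 1), g b)
    (fun a b hab f hf => ?_) ?_ (fun f g hf hg => ?_) hf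
  · refine ⟨fun i => if i = b then f else 0, fun i _ => ?_, ?_⟩
    · dsimp only
      split_ifs with h
      · rw [h, show k - b = a by omega]
        exact hf
      · exact Submodule.zero_mem _
    · rw [Finset.sum_ite_eq', if_pos (by rw [Finset.mem_range]; omega)]
  · exact ⟨fun _ => 0, fun _ _ => Submodule.zero_mem _, by rw [Finset.sum_const_zero]⟩
  · obtain ⟨g1, h1, e1⟩ := hf
    obtain ⟨g2, h2, e2⟩ := hg
    refine ⟨fun b => g1 b + g2 b, fun b hb => Submodule.add_mem _ (h1 b hb) (h2 b hb), ?_⟩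
    rw [Finset.sum_add_distrib, e1, e2]

variable {P}

/-- an element of degree `k` is determined by its value on a generator of `H^{n,0}` -/
theorem total_eq_zero {v : A} (hv : v ∈ X.H n 0)
    (hinj : ∀ a b, b ≤ n → ∀ f ∈ P.T a b, f v = 0 → f = 0) {k : ℕ} {f : Module.End ℂ A}
    (hf : f ∈ P.total k) (h0 : f v = 0) : f = 0 := by
  obtain ⟨g, hg, rfl⟩ := P.exists_sum hf
  refine Finset.sum_eq_zero fun b hb => ?_
  rcases Nat.lt_or_ge n b with hn | hn
  · exact P.T_eq_zero hn (hg b hb)
  · refine hinj (k - b) b hn _ (hg b hb) ?_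
    have h1 : ∀ i ∈ Finset.range (k + 1), X.proj (n - b) (k - b) (g i v) =
        if i = b then g b v else 0 := by
      intro i hi
      rcases Nat.lt_or_ge n i with h | h
      · rw [P.T_eq_zero h (hg i hi), LinearMap.zero_apply, map_zero, if_neg (by omega)]
      · have h2 : g i v ∈ X.H (n - i) (k - i) := by
          have h3 := P.degree (k - i) i (n - i) 0 (g i) v (hg i hi)
            (by rw [Nat.sub_add_cancel h]; exact hv)
          rwa [zero_add] at h3
        rw [X.proj_of_mem _ _ h2]
        by_cases hib : i = b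
        · rw [if_pos hib, hib, if_pos rfl]
        · rw [if_neg hib, if_neg]
          intro h4
          have := (Prod.ext_iff.1 h4).1
          simp only at this
          omega
    have h2 : X.proj (n - b) (k - b) ((∑ i ∈ Finset.range (k + 1), g i) v) = g b v := by
      rw [LinearMap.sum_apply, map_sum, Finset.sum_congr rfl h1, Finset.sum_ite_eq',
        if_pos hb]
    rw [← h2, h0, map_zero]

/-- every element of the column of index `n - k` is a value -/
theorem total_surj {v : A} (hsurj : ∀ a b, b ≤ n → ∀ w ∈ X.H (n - b) a, ∃ f ∈ P.T a b, f v = w)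
    {k : ℕ} {w : A} (hw : w ∈ X.column ((n : ℤ) - k)) : ∃ f ∈ P.total k, f v = w := by
  refine X.column_induct (P := fun w => ∃ f ∈ P.total k, f v = w) (fun p q hpq w hw => ?_)
    ⟨0, Submodule.zero_mem _, rfl⟩ ?_ hw
  · rcases Nat.lt_or_ge n p with h | h
    · rw [X.bounded p q (Or.inl h), Submodule.mem_bot] at hw
      exact ⟨0, Submodule.zero_mem _, by rw [hw, LinearMap.zero_apply]⟩
    · obtain ⟨f, hf, e⟩ := hsurj q (n - p) (by omega) w (by
        rw [show n - (n - p) = p by omega]; exact hw)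
      exact ⟨f, P.mem_total (by omega) hf, e⟩
  · rintro a b ⟨f, hf, rfl⟩ ⟨g, hg, rfl⟩
    exact ⟨f + g, Submodule.add_mem _ hf hg, rfl⟩

/-- no polyvector fields of degree `k` if the column of index `n - k` is zero -/
theorem TrivialCanonical.total_eq_bot (h : P.TrivialCanonical) {k : ℕ}
    (hk : X.column ((n : ℤ) - k) = ⊥) : P.total k = ⊥ := by
  obtain ⟨v, hv, h1⟩ := h
  rw [eq_bot_iff]
  intro f hf
  rw [Submodule.mem_bot]
  refine total_eq_zero hv (fun a b hb => (h1 a b hb).1) hf ?_
  have h2 := P.total_column hf (X.mem_column (i := n) (by simp) hv)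
  rwa [hk, Submodule.mem_bot] at h2

variable (P)

/-- the operators of bidegree `(0, 0)` are the scalars -/
theorem T_zero_zero {f : Module.End ℂ A} (hf : f ∈ P.T 0 0) : ∃ c : ℂ, f = c • 1 := by
  obtain ⟨x, hx, rfl⟩ := (P.functions 0 f).1 hf
  obtain ⟨c, rfl⟩ := X.unit_span hx
  refine ⟨c, ?_⟩
  ext v
  simp

theorem one_mem_T : (1 : Module.End ℂ A) ∈ P.T 0 0 :=
  (P.functions 0 1).2 ⟨1, X.one_mem, by ext v; simp⟩

end PolyvectorAction

section transport

variable {n : ℕ} {A B : Type*} [Ring A] [Algebra ℂ A] [Ring B] [Algebra ℂ B]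
  {X : HodgeRing n A} {Y : HodgeRing n B} {phi : A ≃ₗ[ℂ] B}

theorem rkf_transport (hM : IsMukaiIsometry X Y phi) (f : Module.End ℂ A) (d : ℤ) :
    Y.rkf (phi.toLinearMap ∘ₗ f ∘ₗ phi.symm.toLinearMap) d = X.rkf f d := by
  unfold HodgeRing.rkf
  have h1 : (Y.column d).map (phi.toLinearMap ∘ₗ f ∘ₗ phi.symm.toLinearMap) =
      ((X.column d).map f).map phi.toLinearMap := by
    rw [← hM.column d, ← Submodule.map_comp, ← Submodule.map_comp]
    congr 1
    ext v
    simp
  rw [h1]
  exact finrank_map_of_inj' _ _ fun v _ hv => phi.map_eq_zero_iff.1 hv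

theorem rkfL_transport (hM : IsMukaiIsometry X Y phi) (f : Module.End ℂ A) :
    Y.rkfL (phi.toLinearMap ∘ₗ f ∘ₗ phi.symm.toLinearMap) = X.rkfL f := by
  ext d
  rw [Y.coeff_rkfL, X.coeff_rkfL, rkf_transport hM]

theorem gen_column [FiniteDimensional ℂ A] [FiniteDimensional ℂ B]
    (hM : IsMukaiIsometry X Y phi) :
    X.gen (HodgeRing.wt 1) = Y.gen (HodgeRing.wt 1) := by
  ext d
  rw [X.coeff_gen_column, Y.coeff_gen_column, ← hM.column d]
  congr 1
  exact (finrank_map_of_inj' _ _ fun v _ hv => phi.map_eq_zero_iff.1 hv).symm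

end transport

end Pool.Agent.Hodge81
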