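import Pool.Agent.Helper94.CY.Box

/-!
# Ranks of operators on a product
-/

set_option autoImplicit false

namespace Pool.Agent.Hodge81

open Complex Module LaurentPolynomial
open Pool.Agent.CY94

namespace Product

variable {n a b : ℕ} {A C D : Type*} [Ring A] [Algebra ℂ A] [Ring C] [Algebra ℂ C]
  [Ring D] [Algebra ℂ D] {X : HodgeRing n A} {W : HodgeRing a C} {Z : HodgeRing b D}
  (U : Product X W Z) {ι κ : Type*} (β : HBasis W ι) (γ : HBasis Z κ)

theorem inl_ins (f : Module.End ℂ C) (j : κ) : U.inl f ∘ₗ U.ins γ j = U.ins γ j ∘ₗ f := by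
  ext c
  change U.inl f (U.fst c * U.snd (γ.basis j)) = U.fst (f c) * U.snd (γ.basis j)
  rw [inl_apply]

include β in
/-- the rank of `f ⊠ 1` on the columns of the product -/
theorem rkf_inl [FiniteDimensional ℂ A] [Fintype κ] (f : Module.End ℂ C) (d : ℤ) :
    X.rkf (U.inl f) d = ∑ j, W.rkf f (d - (((γ.deg j).1 : ℤ) - (γ.deg j).2)) := by
  unfold HodgeRing.rkf
  rw [U.column β γ d, Submodule.map_iSup]
  have h1 : ∀ j, ((W.column (d - (((γ.deg j).1 : ℤ) - (γ.deg j).2))).map (U.ins γ j)).map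
      (U.inl f) = ((W.column (d - (((γ.deg j).1 : ℤ) - (γ.deg j).2))).map f).map
        (U.ins γ j) := by
    intro j
    rw [← Submodule.map_comp, ← Submodule.map_comp, inl_ins]
  rw [iSup_congr h1, finrank_iSup_of_indep]
  · refine Finset.sum_congr rfl fun j _ => ?_
    exact finrank_map_of_inj' _ _ fun v _ hv => U.ins_inj β γ j v hv
  · exact (U.ins_indep β γ).mono fun j => LinearMap.map_le_range

theorem rkfL_inl [FiniteDimensional ℂ A] [FiniteDimensional ℂ C] [FiniteDimensional ℂ D]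
    (f : Module.End ℂ C) : X.rkfL (U.inl f) = W.rkfL f * Z.gen (HodgeRing.wt 1) := by
  classical
  unfold HodgeRing.gen
  rw [← Z.hbasis.sum_deg (HodgeRing.wt 1), Finset.mul_sum]
  ext d
  rw [HodgeRing.coeff_rkfL, U.rkf_inl W.hbasis Z.hbasis, AddMonoidAlgebra.coeff_sum,
    Finsupp.finsetSum_apply]
  push_cast
  refine Finset.sum_congr rfl fun j _ => ?_
  unfold HodgeRing.wt
  rw [one_pow, ← single_eq_C_mul_T, AddMonoidAlgebra.coeff_mul_single_apply, mul_one,
    HodgeRing.coeff_rkfL]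
  rfl

/-- multiplication by a class of the first factor -/
noncomputable def ins' (i : ι) : D →ₗ[ℂ] A :=
  (LinearMap.mulLeft ℂ (U.fst (β.basis i))) ∘ₗ U.snd.toLinearMap

theorem ins'_apply (i : ι) (z : D) : U.ins' β i z = U.fst (β.basis i) * U.snd z := rfl

include γ in
theorem ins'_inj (i : ι) : ∀ z, U.ins' β i z = 0 → z = 0 := by
  have h1 : LinearIndependent ℂ fun j => (U.hbasis β γ).basis (i, j) :=
    (U.hbasis β γ).basis.linearIndependent.comp (fun j => (i, j)) fun j j' h =>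
      (Prod.ext_iff.1 h).2
  have h2 : U.ins' β i = (Finsupp.linearCombination ℂ fun j => (U.hbasis β γ).basis (i, j)) ∘ₗ
      γ.basis.repr.toLinearMap := by
    refine γ.basis.ext fun j => ?_
    rw [LinearMap.comp_apply, LinearEquiv.coe_coe, Basis.repr_self,
      Finsupp.linearCombination_single, one_smul, hbasis_apply, ins'_apply]
  intro c hc
  rw [h2, LinearMap.comp_apply] at hc
  have h3 := (linearIndependent_iff.1 h1) _ hc
  simpa using h3

theorem ins'_range (i : ι) : LinearMap.range (U.ins' β i) ≤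
    Submodule.span ℂ ((U.hbasis β γ).basis '' {x | x.1 = i}) := by
  rw [LinearMap.range_eq_map, ← γ.basis.span_eq, Submodule.map_span, Submodule.span_le]
  rintro _ ⟨_, ⟨j, rfl⟩, rfl⟩
  refine Submodule.subset_span ⟨(i, j), rfl, ?_⟩
  rw [hbasis_apply, ins'_apply]

include γ in
theorem ins'_indep : iSupIndep fun i => LinearMap.range (U.ins' β i) := by
  intro j
  have h1 : Disjoint {x : ι × κ | x.1 = j} {x : ι × κ | x.1 ≠ j} := by
    rw [Set.disjoint_left]
    intro x h h'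
    exact h' h
  have h2 := (U.hbasis β γ).basis.linearIndependent.disjoint_span_image h1
  refine h2.mono (U.ins'_range β γ j) (iSup₂_le fun i hi => (U.ins'_range β γ i).trans ?_)
  refine Submodule.span_mono (Set.image_mono fun x hx => ?_)
  change x.1 ≠ j
  have : x.1 = i := hx
  rwa [this]

include γ in
/-- the columns of a product -/
theorem column' (d : ℤ) : X.column d =
    ⨆ i, (Z.column (d - (((β.deg i).1 : ℤ) - (β.deg i).2))).map (U.ins' β i) := by
  apply le_antisymm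
  · rw [(U.hbasis β γ).column_eq d, Submodule.span_le]
    rintro _ ⟨⟨i, j⟩, hij, rfl⟩
    refine Submodule.mem_iSup_of_mem i ⟨γ.basis j, ?_, (U.hbasis_apply β γ i j).symm⟩
    refine Z.mem_column ?_ (γ.mem j)
    have h1 : (((β.deg i + γ.deg j).1 : ℕ) : ℤ) - ((β.deg i + γ.deg j).2 : ℕ) = d := hij
    rw [Prod.fst_add, Prod.snd_add] at h1
    push_cast at h1
    omega
  · refine iSup_le fun i => ?_
    rintro _ ⟨c, hc, rfl⟩
    refine Z.column_induct (P := fun c => U.ins' β i c ∈ X.column d) (fun p q hpq v hv => ?_)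
      (by rw [map_zero]; exact Submodule.zero_mem _)
      (fun a b ha hb => by rw [map_add]; exact Submodule.add_mem _ ha hb) hc
    refine X.mem_column ?_ (X.mul_mem _ _ _ _ _ _ (U.fst_mem _ _ _ (β.mem i))
      (U.snd_mem _ _ _ hv))
    push_cast
    omega

include γ in
/-- the rank of `1 ⊠ g` on the columns of the product -/
theorem rkf_inr [FiniteDimensional ℂ A] [Fintype ι] (g : Module.End ℂ D) (d : ℤ) :
    X.rkf (U.inr g) d = ∑ i, Z.rkf g (d - (((β.deg i).1 : ℤ) - (β.deg i).2)) := by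
  unfold HodgeRing.rkf
  rw [U.column' β γ d, Submodule.map_iSup]
  have h1 : ∀ i, ((Z.column (d - (((β.deg i).1 : ℤ) - (β.deg i).2))).map (U.ins' β i)).map
      (U.inr g) = ((Z.column (d - (((β.deg i).1 : ℤ) - (β.deg i).2))).map g).map
        (U.ins' β i) := by
    intro i
    have key : ∀ z, U.inr g (U.ins' β i z) =
        (-1 : ℂ) ^ ((β.deg i).1 + (β.deg i).2) • U.ins' β i (g z) := by
      intro z
      rw [ins'_apply, inr_apply, W.sgn_of_mem (β.mem i), map_smul, smul_mul_assoc, ins'_apply]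
    have hu : ∀ v : A, (-1 : ℂ) ^ ((β.deg i).1 + (β.deg i).2) •
        ((-1 : ℂ) ^ ((β.deg i).1 + (β.deg i).2) • v) = v := by
      intro v
      rw [smul_smul, ← mul_pow]
      norm_num
    apply le_antisymm
    · rintro _ ⟨_, ⟨z, hz, rfl⟩, rfl⟩
      rw [key]
      exact Submodule.smul_mem _ _ ⟨_, ⟨z, hz, rfl⟩, rfl⟩
    · rintro _ ⟨_, ⟨z, hz, rfl⟩, rfl⟩
      rw [← hu (U.ins' β i (g z)), ← key]
      exact Submodule.smul_mem _ _ ⟨_, ⟨z, hz, rfl⟩, rfl⟩
  rw [iSup_congr h1, finrank_iSup_of_indep]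
  · refine Finset.sum_congr rfl fun j _ => ?_
    exact finrank_map_of_inj' _ _ fun v _ hv => U.ins'_inj β γ j v hv
  · exact (U.ins'_indep β γ).mono fun j => LinearMap.map_le_range

theorem rkfL_inr [FiniteDimensional ℂ A] [FiniteDimensional ℂ C] [FiniteDimensional ℂ D]
    (g : Module.End ℂ D) : X.rkfL (U.inr g) = Z.rkfL g * W.gen (HodgeRing.wt 1) := by
  classical
  unfold HodgeRing.gen
  rw [← W.hbasis.sum_deg (HodgeRing.wt 1), Finset.mul_sum]
  ext d
  rw [HodgeRing.coeff_rkfL, U.rkf_inr W.hbasis Z.hbasis, AddMonoidAlgebra.coeff_sum,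
    Finsupp.finsetSum_apply]
  push_cast
  refine Finset.sum_congr rfl fun j _ => ?_
  unfold HodgeRing.wt
  rw [one_pow, ← single_eq_C_mul_T, AddMonoidAlgebra.coeff_mul_single_apply, mul_one,
    HodgeRing.coeff_rkfL]
  rfl

end Product

/-! ### block decompositions -/

/-- the column polynomial of a strict Calabi-Yau threefold -/
noncomputable def cyPoly (x : ℕ × ℕ) : ℤ[T;T⁻¹] :=
  T 3 + C (x.2 : ℤ) * T 1 + C (2 + 2 * x.1 : ℤ) + C (x.2 : ℤ) * T (-1) + T (-3)

/-- The space of polyvector fields of degree three is decomposed into blocks, one for each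
threefold in the list `L` of pairs `(h^{1,1}, h^{2,1})`. -/
def HasBlocks {n : ℕ} {A : Type*} [Ring A] [Algebra ℂ A] {X : HodgeRing n A}
    (P : PolyvectorAction X) (L : Multiset (ℕ × ℕ)) : Prop :=
  P.total 1 = ⊥ ∧ ∃ (J : Type) (_ : Fintype J) (Tb : J → Submodule ℂ (Module.End ℂ A))
    (num : J → ℕ × ℕ), Blocks (P.total 3) Tb ∧
      (∀ j, ∀ t ∈ Tb j, t ≠ 0 → X.rkfL t * cyPoly (num j) =
        (T 3 + 1) * X.gen (HodgeRing.wt 1)) ∧
      (∀ j, ∃ y ∈ X.H 0 3, y ≠ 0 ∧ (LinearMap.mulLeft ℂ y : Module.End ℂ A) ∈ Tb j) ∧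
      L = Finset.univ.val.map num

theorem coeff_CT (c : ℤ) (k d : ℤ) : (C c * T k : ℤ[T;T⁻¹]).coeff d = if k = d then c else 0 := by
  rw [← single_eq_C_mul_T, AddMonoidAlgebra.coeff_single, Finsupp.single_apply]

theorem coeff_cyPoly (x : ℕ × ℕ) (d : ℤ) : (cyPoly x).coeff d =
    (if (3 : ℤ) = d then 1 else 0) + (if (1 : ℤ) = d then (x.2 : ℤ) else 0) +
      (if (0 : ℤ) = d then 2 + 2 * (x.1 : ℤ) else 0) + (if (-1 : ℤ) = d then (x.2 : ℤ) else 0) +
      (if (-3 : ℤ) = d then 1 else 0) := by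
  have h1 : cyPoly x = C 1 * T 3 + C (x.2 : ℤ) * T 1 + C (2 + 2 * x.1 : ℤ) * T 0 +
      C (x.2 : ℤ) * T (-1) + C 1 * T (-3) := by
    unfold cyPoly
    rw [T_zero, mul_one, map_one, one_mul, one_mul]
  rw [h1]
  simp only [AddMonoidAlgebra.coeff_add, Finsupp.add_apply, coeff_CT]

theorem cyPoly_injective : Function.Injective cyPoly := by
  intro x y hxy
  have e1 := congrArg (fun f => f.coeff (1 : ℤ)) hxy
  have e0 := congrArg (fun f => f.coeff (0 : ℤ)) hxy
  simp only [coeff_cyPoly] at e1 e0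
  norm_num at e1 e0
  exact Prod.ext (by exact_mod_cast e0) (by exact_mod_cast e1)

theorem T3_ne : (T 3 + 1 : ℤ[T;T⁻¹]) ≠ 0 := by
  intro h
  have h1 : (C 1 * T 3 + C 1 * T 0 : ℤ[T;T⁻¹]).coeff 0 = 0 := by
    rw [map_one, one_mul, one_mul, T_zero, h]
    rfl
  rw [AddMonoidAlgebra.coeff_add, Finsupp.add_apply, coeff_CT, coeff_CT] at h1
  norm_num at h1

section product

variable {n a b : ℕ} {A C D : Type*} [Ring A] [Algebra ℂ A] [Ring C] [Algebra ℂ C]
  [Ring D] [Algebra ℂ D] {X : HodgeRing n A} {W : HodgeRing a C} {Z : HodgeRing b D}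
  {U : Product X W Z} {P : PolyvectorAction X} {PW : PolyvectorAction W}
  {PZ : PolyvectorAction Z}

theorem value_one {m : ℕ} {E : Type*} [Ring E] [Algebra ℂ E] {V : HodgeRing m E}
    {PV : PolyvectorAction V} {ξ : E →ₗ[ℂ] ℂ} (hξ : ∀ d : ℤ, d ≠ 0 → ∀ v ∈ V.column d, ξ v = 0)
    {f : Module.End ℂ E} (hf : f ∈ PV.total 3) : ξ (f 1) = 0 := by
  refine hξ (-3) (by norm_num) _ ?_
  have h1 := PV.total_column hf (V.mem_column (i := 0) (by simp) V.one_mem)
  simpa using h1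

theorem value_two {m : ℕ} {E : Type*} [Ring E] [Algebra ℂ E] {V : HodgeRing m E}
    {PV : PolyvectorAction V} {ξ : E →ₗ[ℂ] ℂ} (hξ : ∀ d : ℤ, d ≠ 0 → ∀ v ∈ V.column d, ξ v = 0)
    {f g : Module.End ℂ E} (hf : f ∈ PV.total 3) (hg : g ∈ PV.total 3) : ξ (f (g 1)) = 0 := by
  refine hξ (-6) (by norm_num) _ ?_
  have h1 := PV.total_column hf (PV.total_column hg (V.mem_column (i := 0) (by simp) V.one_mem))
  simpa using h1

/-- `inl` and `inr` have disjoint images -/
theorem inl_ne_inr {f : Module.End ℂ C} {g : Module.End ℂ D} (hf : f ∈ PW.total 3)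
    (h : U.inl f = U.inr g) : g = 0 := by
  obtain ⟨ξ, h1, h2⟩ := W.exists_unit_functional
  ext z
  have h3 := congrArg (fun F : Module.End ℂ A => U.sl ξ (F (U.fst 1 * U.snd z))) h
  simp only [U.inl_apply, U.inr_apply, U.sl_apply] at h3
  rw [value_one h2 hf, zero_smul, W.sgn_of_mem W.one_mem, add_zero, pow_zero, one_smul, h1,
    one_smul] at h3
  rw [LinearMap.zero_apply]
  exact h3.symm

/-- the key computation: two independent elements of degree three with product zero come from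
the same factor -/
theorem product_rel {f f' : Module.End ℂ C} {g g' : Module.End ℂ D}
    (hf : f ∈ PW.total 3) (hf' : f' ∈ PW.total 3) (hg : g ∈ PZ.total 3) (hg' : g' ∈ PZ.total 3)
    (h0 : (U.inl f + U.inr g) * (U.inl f' + U.inr g') = 0)
    (hi : Indep2 (U.inl f + U.inr g) (U.inl f' + U.inr g')) :
    (g = 0 ∧ g' = 0 ∧ f * f' = 0) ∨ (f = 0 ∧ f' = 0 ∧ g * g' = 0) := by
  have main : ∀ w z, U.fst (f (f' w)) * U.snd z + U.fst (f (W.sgn w)) * U.snd (g' z) -
      U.fst (f' (W.sgn w)) * U.snd (g z) + U.fst w * U.snd (g (g' z)) = 0 := by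
    intro w z
    have h1 := LinearMap.congr_fun h0 (U.fst w * U.snd z)
    simp only [Module.End.mul_apply, LinearMap.add_apply, map_add, U.inl_apply, U.inr_apply,
      W.sgn_sgn, W.sgn_odd PW hf', LinearMap.zero_apply] at h1
    rw [← h1, map_neg]
    noncomm_ring
  obtain ⟨ξ, hξ1, hξ2⟩ := W.exists_unit_functional
  obtain ⟨η, hη1, hη2⟩ := Z.exists_unit_functional
  have hW1 : W.sgn 1 = 1 := by rw [W.sgn_of_mem W.one_mem, add_zero, pow_zero, one_smul]
  have hgg : g * g' = 0 := by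
    ext z
    have h1 := congrArg (U.sl ξ) (main 1 z)
    simp only [map_add, map_sub, U.sl_apply, hW1, map_zero] at h1
    rw [value_two hξ2 hf hf', value_one hξ2 hf, value_one hξ2 hf', hξ1, zero_smul, zero_smul,
      zero_smul, one_smul, zero_add, sub_zero, zero_add] at h1
    exact h1
  have hff : f * f' = 0 := by
    ext w
    have h1 := congrArg (U.sr η) (main w 1)
    simp only [map_add, map_sub, U.sr_apply, map_zero] at h1
    rw [value_two hη2 hg hg', value_one hη2 hg, value_one hη2 hg', hη1, zero_smul, zero_smul,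
      zero_smul, one_smul, add_zero, sub_zero, add_zero] at h1
    exact h1
  have main2 : ∀ w z, U.fst (f w) * U.snd (g' z) = U.fst (f' w) * U.snd (g z) := by
    intro w z
    have h1 := main (W.sgn w) z
    have h2 := LinearMap.congr_fun hff (W.sgn w)
    have h3 := LinearMap.congr_fun hgg z
    rw [Module.End.mul_apply, LinearMap.zero_apply] at h2 h3
    rw [h2, h3, W.sgn_sgn, map_zero, map_zero, zero_mul, mul_zero, zero_add, add_zero,
      sub_eq_zero] at h1
    exact h1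
  by_cases hf0 : f = 0
  · -- `f = 0`
    have hg0 : g ≠ 0 := by
      intro hg0
      refine hi.left ?_
      rw [hf0, hg0, ← Product.inlL_apply, ← Product.inrL_apply, map_zero, map_zero, add_zero]
    have hf0' : f' = 0 := by
      obtain ⟨z, hz⟩ : ∃ z, g z ≠ 0 := by
        by_contra h
        push Not at h
        exact hg0 (LinearMap.ext h)
      obtain ⟨θ, hθ⟩ := exists_functional hz
      ext w
      have h1 := congrArg (U.sr θ) (main2 w z)
      rw [U.sr_apply, U.sr_apply, hf0, LinearMap.zero_apply, smul_zero, hθ, one_smul] at h1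
      rw [LinearMap.zero_apply]
      exact h1.symm
    exact Or.inr ⟨hf0, hf0', hgg⟩
  · obtain ⟨w0, hw0⟩ : ∃ w, f w ≠ 0 := by
      by_contra h
      push Not at h
      exact hf0 (LinearMap.ext h)
    obtain ⟨θ, hθ⟩ := exists_functional hw0
    have h1 : g' = θ (f' w0) • g := by
      ext z
      have h2 := congrArg (U.sl θ) (main2 w0 z)
      rw [U.sl_apply, U.sl_apply, hθ, one_smul] at h2
      exact h2
    by_cases hg0 : g = 0
    · exact Or.inl ⟨hg0, by rw [h1, hg0, smul_zero], hff⟩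
    · exfalso
      obtain ⟨z, hz⟩ : ∃ z, g z ≠ 0 := by
        by_contra h
        push Not at h
        exact hg0 (LinearMap.ext h)
      obtain ⟨ζ, hζ⟩ := exists_functional hz
      have h2 : f' = θ (f' w0) • f := by
        ext w
        have h3 := congrArg (U.sr ζ) (main2 w z)
        rw [U.sr_apply, U.sr_apply, hζ, one_smul, h1, LinearMap.smul_apply, map_smul, hζ,
          smul_eq_mul, mul_one] at h3
        exact h3.symm
      generalize θ (f' w0) = c at h1 h2
      have h3 := hi c (-1) (by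
        rw [h1, h2, U.inl_smul, U.inr_smul, ← smul_add, neg_one_smul, add_neg_cancel])
      norm_num at h3

theorem Product.inl_mulLeft (U : Product X W Z) (y : C) :
    U.inl (LinearMap.mulLeft ℂ y) = LinearMap.mulLeft ℂ (U.fst y) := by
  refine U.ext_ku fun w z => ?_
  rw [U.inl_apply, LinearMap.mulLeft_apply, LinearMap.mulLeft_apply, map_mul, mul_assoc]

theorem Product.inr_mulLeft (U : Product X W Z) {y : D} (hy : y ∈ Z.H 0 3) :
    U.inr (LinearMap.mulLeft ℂ y) = LinearMap.mulLeft ℂ (U.snd y) := by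
  refine U.isBox_uniq (Product.Kuenneth.isBox_inr _) fun p q w z hw => ?_
  rw [LinearMap.mulLeft_apply, LinearMap.mulLeft_apply, Module.End.one_apply, map_mul,
    ← mul_assoc, X.comm _ _ _ _ _ _ (U.snd_mem _ _ _ hy) (U.fst_mem _ _ _ hw), zero_add,
    smul_mul_assoc, mul_assoc]

theorem HasBlocks.product [FiniteDimensional ℂ A] [FiniteDimensional ℂ C]
    [FiniteDimensional ℂ D] (K : U.Kuenneth P PW PZ) {L M : Multiset (ℕ × ℕ)}
    (hW : HasBlocks PW L) (hZ : HasBlocks PZ M) : HasBlocks P (L + M) := by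
  obtain ⟨w1, J, _, TW, numW, bW, rW, fW, rfl⟩ := hW
  obtain ⟨z1, J', _, TZ, numZ, bZ, rZ, fZ, rfl⟩ := hZ
  have hgen : X.gen (HodgeRing.wt 1) = W.gen (HodgeRing.wt 1) * Z.gen (HodgeRing.wt 1) :=
    U.gen_mul _ (HodgeRing.wt_add 1)
  have inlinj : ∀ f, U.inlL f = 0 → f = 0 := U.inl_inj
  have inrinj : ∀ f, U.inrL f = 0 → f = 0 := U.inr_inj
  have inrmul : ∀ g g' : Module.End ℂ D, g * g' = 0 → U.inr g * U.inr g' = 0 := by
    intro g g' h
    refine U.ext_ku fun w z => ?_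
    have h1 := LinearMap.congr_fun h z
    rw [Module.End.mul_apply, LinearMap.zero_apply] at h1
    rw [U.inr_mul, h1, map_zero, mul_zero, LinearMap.zero_apply]
  have inlmul : ∀ f f' : Module.End ℂ C, f * f' = 0 → U.inl f * U.inl f' = 0 := by
    intro f f' h
    rw [U.inl_mul, h, ← Product.inlL_apply, map_zero]
  refine ⟨K.total_one w1 z1, J ⊕ J', inferInstance,
    Sum.elim (fun j => (TW j).map U.inlL) (fun j => (TZ j).map U.inrL),
    Sum.elim numW numZ, ⟨?_, ?_, ?_, ?_, ?_⟩, ?_, ?_, ?_⟩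
  · rintro (j | j)
    · rintro _ ⟨f, hf, rfl⟩
      exact K.inl_mem (bW.le j hf)
    · rintro _ ⟨f, hf, rfl⟩
      exact K.inr_mem (bZ.le j hf)
  · rintro (j | j)
    · obtain ⟨t, ht, h0⟩ := bW.ne j
      exact ⟨U.inlL t, ⟨t, ht, rfl⟩, fun h => h0 (inlinj t h)⟩
    · obtain ⟨t, ht, h0⟩ := bZ.ne j
      exact ⟨U.inrL t, ⟨t, ht, rfl⟩, fun h => h0 (inrinj t h)⟩
  · rintro x hx (i | i) (j | j)
    · rintro ⟨f, hf, rfl⟩ ⟨f', hf', e⟩
      have h1 : f' = f := by
        rw [← sub_eq_zero]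
        exact inlinj _ (by rw [map_sub, e, sub_self])
      rw [h1] at hf'
      have hf0 : f ≠ 0 := fun h => hx (by rw [h, map_zero])
      exact congrArg Sum.inl (bW.uniq f hf0 i j hf hf')
    · rintro ⟨f, hf, rfl⟩ ⟨g, hg, e⟩
      exfalso
      have h1 : g = 0 := inl_ne_inr (U := U) (bW.le i hf) e.symm
      exact hx (by rw [← e, h1, map_zero])
    · rintro ⟨g, hg, rfl⟩ ⟨f, hf, e⟩
      exfalso
      have h1 : g = 0 := inl_ne_inr (U := U) (bW.le j hf) e
      exact hx (by rw [h1, map_zero])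
    · rintro ⟨f, hf, rfl⟩ ⟨f', hf', e⟩
      have h1 : f' = f := by
        rw [← sub_eq_zero]
        exact inrinj _ (by rw [map_sub, e, sub_self])
      rw [h1] at hf'
      have hf0 : f ≠ 0 := fun h => hx (by rw [h, map_zero])
      exact congrArg Sum.inr (bZ.uniq f hf0 i j hf hf')
  · intro t ht s hs h0 hi
    obtain ⟨f, hf, g, hg, rfl⟩ := K.exists_three w1 z1 ht
    obtain ⟨f', hf', g', hg', rfl⟩ := K.exists_three w1 z1 hs
    rcases product_rel hf hf' hg hg' h0 hi with ⟨rfl, rfl, h1⟩ | ⟨rfl, rfl, h1⟩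
    · have e : U.inr (0 : Module.End ℂ D) = 0 := by rw [← Product.inrL_apply, map_zero]
      rw [e, add_zero, add_zero] at hi ⊢
      obtain ⟨j, hj, hj'⟩ := bW.rel f hf f' hf' h1 (fun c d hcd => hi c d (by
        rw [← U.inl_smul, ← U.inl_smul, ← U.inl_add, hcd, ← Product.inlL_apply, map_zero]))
      exact ⟨Sum.inl j, ⟨f, hj, rfl⟩, ⟨f', hj', rfl⟩⟩
    · have e : U.inl (0 : Module.End ℂ C) = 0 := by rw [← Product.inlL_apply, map_zero]
      rw [e, zero_add, zero_add] at hi ⊢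
      obtain ⟨j, hj, hj'⟩ := bZ.rel g hg g' hg' h1 (fun c d hcd => hi c d (by
        rw [← U.inr_smul, ← U.inr_smul, ← U.inr_add, hcd, ← Product.inrL_apply, map_zero]))
      exact ⟨Sum.inr j, ⟨g, hj, rfl⟩, ⟨g', hj', rfl⟩⟩
  · rintro (j | j)
    · rintro _ ⟨f, hf, rfl⟩ _ ⟨f', hf', rfl⟩ h0 h0'
      obtain ⟨u, hu, i1, m1, i2, m2⟩ := bW.link j f hf f' hf' (fun h => h0 (by rw [h, map_zero]))
        (fun h => h0' (by rw [h, map_zero]))
      exact ⟨U.inlL u, ⟨u, hu, rfl⟩, i1.map U.inlL inlinj, inlmul _ _ m1,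
        i2.map U.inlL inlinj, inlmul _ _ m2⟩
    · rintro _ ⟨f, hf, rfl⟩ _ ⟨f', hf', rfl⟩ h0 h0'
      obtain ⟨u, hu, i1, m1, i2, m2⟩ := bZ.link j f hf f' hf' (fun h => h0 (by rw [h, map_zero]))
        (fun h => h0' (by rw [h, map_zero]))
      exact ⟨U.inrL u, ⟨u, hu, rfl⟩, i1.map U.inrL inrinj, inrmul _ _ m1,
        i2.map U.inrL inrinj, inrmul _ _ m2⟩
  · rintro (j | j)
    · rintro _ ⟨f, hf, rfl⟩ h0
      have h1 := rW j f hf (fun h => h0 (by rw [h, map_zero]))
      change X.rkfL (U.inl f) * cyPoly (numW j) = _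
      rw [U.rkfL_inl, hgen, ← mul_assoc, ← h1]
      ring
    · rintro _ ⟨f, hf, rfl⟩ h0
      have h1 := rZ j f hf (fun h => h0 (by rw [h, map_zero]))
      change X.rkfL (U.inr f) * cyPoly (numZ j) = _
      rw [U.rkfL_inr, hgen]
      calc Z.rkfL f * W.gen (HodgeRing.wt 1) * cyPoly (numZ j)
          = W.gen (HodgeRing.wt 1) * (Z.rkfL f * cyPoly (numZ j)) := by ring
        _ = _ := by rw [h1]; ring
  · rintro (j | j)
    · obtain ⟨y, hy, hy0, hyT⟩ := fW j
      exact ⟨U.fst y, U.fst_mem _ _ _ hy, fun h => hy0 (U.fst_inj y h),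
        ⟨_, hyT, U.inl_mulLeft y⟩⟩
    · obtain ⟨y, hy, hy0, hyT⟩ := fZ j
      exact ⟨U.snd y, U.snd_mem _ _ _ hy, fun h => hy0 (U.snd_inj y h),
        ⟨_, hyT, U.inr_mulLeft hy⟩⟩
  · rw [← Finset.univ_disjSum_univ]
    change _ = ((Finset.univ : Finset J).val.disjSum (Finset.univ : Finset J').val).map _
    rw [Multiset.disjSum, Multiset.map_add, Multiset.map_map, Multiset.map_map]
    rfl

/-- The blocks of a product of a variety without polyvector fields of degree one and of a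
variety with a block decomposition. -/
theorem HasBlocks.extend [FiniteDimensional ℂ A] [FiniteDimensional ℂ C]
    [FiniteDimensional ℂ D] (K : U.Kuenneth P PW PZ) {L : Multiset (ℕ × ℕ)}
    (w1 : PW.total 1 = ⊥) (hZ : HasBlocks PZ L) :
    ∃ (J : Type) (_ : Fintype J) (Tb : J → Submodule ℂ (Module.End ℂ A))
      (num : J → ℕ × ℕ), BlocksE (P.total 3) Tb ((PW.total 3).map U.inlL) ∧
      (∀ j, ∀ t ∈ Tb j, t ≠ 0 → X.rkfL t * cyPoly (num j) =
        (T 3 + 1) * X.gen (HodgeRing.wt 1)) ∧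
      (∀ j, ∃ y ∈ Z.H 0 3, y ≠ 0 ∧
        (LinearMap.mulLeft ℂ (U.snd y) : Module.End ℂ A) ∈ Tb j) ∧
      L = Finset.univ.val.map num := by
  obtain ⟨z1, J', _, TZ, numZ, bZ, rZ, fZ, rfl⟩ := hZ
  have hgen : X.gen (HodgeRing.wt 1) = W.gen (HodgeRing.wt 1) * Z.gen (HodgeRing.wt 1) :=
    U.gen_mul _ (HodgeRing.wt_add 1)
  have inrinj : ∀ f, U.inrL f = 0 → f = 0 := U.inr_inj
  have inrmul : ∀ g g' : Module.End ℂ D, g * g' = 0 → U.inr g * U.inr g' = 0 := by
    intro g g' h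
    refine U.ext_ku fun w z => ?_
    have h1 := LinearMap.congr_fun h z
    rw [Module.End.mul_apply, LinearMap.zero_apply] at h1
    rw [U.inr_mul, h1, map_zero, mul_zero, LinearMap.zero_apply]
  refine ⟨J', inferInstance, fun j => (TZ j).map U.inrL, numZ,
    ⟨fun j => ?_, fun j => ?_, ?_, ?_, ?_, ?_⟩, ?_, ?_, rfl⟩
  · rintro _ ⟨f, hf, rfl⟩
    exact K.inr_mem (bZ.le j hf)
  · obtain ⟨t, ht, h0⟩ := bZ.ne j
    exact ⟨U.inrL t, ⟨t, ht, rfl⟩, fun h => h0 (inrinj t h)⟩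
  · rintro x hx i j ⟨f, hf, rfl⟩ ⟨f', hf', e⟩
    have h1 : f' = f := by
      rw [← sub_eq_zero]
      exact inrinj _ (by rw [map_sub, e, sub_self])
    rw [h1] at hf'
    have hf0 : f ≠ 0 := fun h => hx (by rw [h, map_zero])
    exact bZ.uniq f hf0 i j hf hf'
  · rintro x hx j ⟨g, hg, rfl⟩ ⟨f, hf, e⟩
    have h1 : g = 0 := inl_ne_inr (U := U) hf e
    exact hx (by rw [h1, map_zero])
  · intro t ht s hs h0 hi
    obtain ⟨f, hf, g, hg, rfl⟩ := K.exists_three w1 z1 ht
    obtain ⟨f', hf', g', hg', rfl⟩ := K.exists_three w1 z1 hs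
    rcases product_rel hf hf' hg hg' h0 hi with ⟨rfl, rfl, h1⟩ | ⟨rfl, rfl, h1⟩
    · have e : U.inr (0 : Module.End ℂ D) = 0 := by rw [← Product.inrL_apply, map_zero]
      rw [e, add_zero, add_zero]
      exact Or.inr ⟨⟨f, hf, rfl⟩, ⟨f', hf', rfl⟩⟩
    · have e : U.inl (0 : Module.End ℂ C) = 0 := by rw [← Product.inlL_apply, map_zero]
      rw [e, zero_add, zero_add] at hi ⊢
      obtain ⟨j, hj, hj'⟩ := bZ.rel g hg g' hg' h1 (fun c d hcd => hi c d (by
        rw [← U.inr_smul, ← U.inr_smul, ← U.inr_add, hcd, ← Product.inrL_apply, map_zero]))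
      exact Or.inl ⟨j, ⟨g, hj, rfl⟩, ⟨g', hj', rfl⟩⟩
  · rintro j _ ⟨f, hf, rfl⟩ _ ⟨f', hf', rfl⟩ h0 h0'
    obtain ⟨u, hu, i1, m1, i2, m2⟩ := bZ.link j f hf f' hf' (fun h => h0 (by rw [h, map_zero]))
      (fun h => h0' (by rw [h, map_zero]))
    exact ⟨U.inrL u, ⟨u, hu, rfl⟩, i1.map U.inrL inrinj, inrmul _ _ m1,
      i2.map U.inrL inrinj, inrmul _ _ m2⟩
  · rintro j _ ⟨f, hf, rfl⟩ h0
    have h1 := rZ j f hf (fun h => h0 (by rw [h, map_zero]))
    change X.rkfL (U.inr f) * cyPoly (numZ j) = _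
    rw [U.rkfL_inr, hgen]
    calc Z.rkfL f * W.gen (HodgeRing.wt 1) * cyPoly (numZ j)
        = W.gen (HodgeRing.wt 1) * (Z.rkfL f * cyPoly (numZ j)) := by ring
      _ = _ := by rw [h1]; ring
  · intro j
    obtain ⟨y, hy, hy0, hyT⟩ := fZ j
    exact ⟨y, hy, hy0, ⟨_, hyT, U.inr_mulLeft hy⟩⟩

end product

/-- matching of the blocks -/
theorem lists_eq {n : ℕ} {A B : Type*} [Ring A] [Algebra ℂ A] [FiniteDimensional ℂ A]
    [Ring B] [Algebra ℂ B] [FiniteDimensional ℂ B] {X : HodgeRing n A} {Y : HodgeRing n B}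
    {P : PolyvectorAction X} {Q : PolyvectorAction Y} {phi : A ≃ₗ[ℂ] B}
    (h : IsHochschildIso P Q phi) (hM : IsMukaiIsometry X Y phi)
    {J J' : Type} [Fintype J] [Fintype J'] {TX : J → Submodule ℂ (Module.End ℂ A)}
    {TY : J' → Submodule ℂ (Module.End ℂ B)} {N : Submodule ℂ (Module.End ℂ A)}
    {N' : Submodule ℂ (Module.End ℂ B)} {numX : J → ℕ × ℕ} {numY : J' → ℕ × ℕ}
    (bX : BlocksE (P.total 3) TX N) (bY : BlocksE (Q.total 3) TY N')
    (rX : ∀ j, ∀ t ∈ TX j, t ≠ 0 → X.rkfL t * cyPoly (numX j) =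
        (T 3 + 1) * X.gen (HodgeRing.wt 1))
    (rY : ∀ j, ∀ t ∈ TY j, t ≠ 0 → Y.rkfL t * cyPoly (numY j) =
        (T 3 + 1) * Y.gen (HodgeRing.wt 1))
    (hex : ∀ j, ∃ x ∈ TX j, phi.conjAlgEquiv ℂ x ∉ N')
    (hex' : ∀ j, ∃ x ∈ TY j, (phi.conjAlgEquiv ℂ).symm x ∉ N)
    (hne : X.gen (HodgeRing.wt 1) ≠ 0) :
    (Finset.univ.val.map numX) = Finset.univ.val.map numY := by
  obtain ⟨π, hπ⟩ := bX.exists_equiv bY (phi.conjAlgEquiv ℂ) (fun x => h.total 3 x) hex hex'
  have hg := gen_column hM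
  have hnum : ∀ j, numX j = numY (π j) := by
    intro j
    obtain ⟨t, ht, ht0⟩ := bX.ne j
    have h1 := rX j t ht ht0
    have h2 := rY (π j) (phi.conjAlgEquiv ℂ t) ((hπ j t).1 ht) (by
      intro h3
      exact ht0 ((map_eq_zero_iff _ (phi.conjAlgEquiv ℂ).injective).1 h3))
    have h3 : Y.rkfL (phi.conjAlgEquiv ℂ t) = X.rkfL t := rkfL_transport hM t
    rw [h3, ← hg, ← h1] at h2
    refine cyPoly_injective (mul_left_cancel₀ ?_ h2).symm
    intro h4
    rw [h4, zero_mul] at h1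
    exact mul_ne_zero T3_ne hne h1.symm
  have e : numX = numY ∘ π := funext hnum
  rw [e, ← Multiset.map_map, Multiset.map_univ_val_equiv]

end Pool.Agent.Hodge81
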